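import Pool.Agent.Helper38.EC.Goals

set_option autoImplicit false

open MeasureTheory Filter Topology Set Complex

namespace Pool.Agent.Helper38.EC.I_HEX

open EC237 EC237.PI

theorem thm (rp : G_RP) (vpa : G_VPA) : G_HEX := by
  intro p hp t ht
  have hint : ∀ k : ℕ, k ∈ Finset.range 7 →
      IntegrableOn (fun η : ℝ => fb (6 - k) p (t - I * η)) (Ioi 0) := by
    intro k _
    exact (vpa _ (rp.1 (6 - k) (by omega) p hp)).1 t ht
  have hpt : ∀ u : ℂ, BB t u ^ 6 * u ^ p =
      ∑ k ∈ Finset.range 7, ((Nat.choose 6 k : ℂ) * (-1) ^ k * Ic t ^ (6 - k) * Kc t ^ k) *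
        fb (6 - k) p u := by
    intro u
    simp only [BB, fb, Finset.sum_range_succ, Finset.sum_range_zero]
    norm_num [Nat.choose]
    ring
  unfold Hp GV
  have h1 : (fun η : ℝ => BB t (t - I * η) ^ 6 * (t - I * η) ^ p) = fun η : ℝ =>
      ∑ k ∈ Finset.range 7, ((Nat.choose 6 k : ℂ) * (-1) ^ k * Ic t ^ (6 - k) * Kc t ^ k) *
        fb (6 - k) p (t - I * η) := by
    funext η
    exact hpt _
  rw [h1, integral_finset_sum]
  · rw [Finset.mul_sum]
    refine Finset.sum_congr rfl fun k _ => ?_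
    rw [integral_const_mul]
    ring
  · intro k hk
    exact (hint k hk).const_mul _

end Pool.Agent.Helper38.EC.I_HEX
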