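import Pool.Agent.Helper38.EC.Goals

set_option autoImplicit false

open MeasureTheory Filter Topology Set Complex

namespace Pool.Agent.Helper38.EC.I_REAL

open EC237 EC237.PI

theorem thm (jy : G_JY) : G_REAL := by
  obtain ⟨h1, -, -, -⟩ := jy
  intro p hp ξ hξ
  -- value of the integrand
  have key : ∀ η : ℝ, 0 < η →
      I * (BB (-(I * ξ)) (-(I * ξ) - I * η) ^ 6 * (-(I * ξ) - I * η) ^ p) =
      (((Jr ξ * Yr (ξ + η) - Yr ξ * Jr (ξ + η)) ^ 6 *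
        (if p = 1 then (ξ + η) else -(ξ + η)⁻¹) : ℝ) : ℂ) := by
    intro η hη
    have hpos : 0 < ξ + η := by linarith
    have e0 : (-(I * (ξ:ℂ)) - I * (η:ℂ)) = -(I * ((ξ + η : ℝ) : ℂ)) := by
      push_cast; ring
    rw [e0]
    have hB : BB (-(I * ξ)) (-(I * ((ξ + η : ℝ) : ℂ))) =
        ((Jr ξ * Yr (ξ + η) - Yr ξ * Jr (ξ + η) : ℝ) : ℂ) := by
      unfold BB
      rw [(h1 ξ hξ).1, (h1 ξ hξ).2.1, (h1 _ hpos).1, (h1 _ hpos).2.1]
      push_cast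
      ring
    rw [hB]
    have hne : ((ξ + η : ℝ) : ℂ) ≠ 0 := by exact_mod_cast hpos.ne'
    rcases hp with rfl | rfl
    · simp only [zpow_one, if_true]
      push_cast
      linear_combination (-(↑(Jr ξ) * ↑(Yr (ξ + η)) - ↑(Yr ξ) * ↑(Jr (ξ + η)) : ℂ) ^ 6 *
        ((ξ:ℂ) + η)) * I_mul_I
    · have hp1 : ((-1 : ℤ) = 1) = False := by norm_num
      simp only [hp1, if_false]
      rw [zpow_neg_one, inv_neg, mul_inv, Complex.inv_I]
      push_cast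
      linear_combination ((↑(Jr ξ) * ↑(Yr (ξ + η)) - ↑(Yr ξ) * ↑(Jr (ξ + η)) : ℂ) ^ 6 *
        ((ξ:ℂ) + η)⁻¹) * I_mul_I
  have : Hp p (-(I * ξ)) = ((∫ η in Ioi (0:ℝ), (Jr ξ * Yr (ξ + η) - Yr ξ * Jr (ξ + η)) ^ 6 *
        (if p = 1 then (ξ + η) else -(ξ + η)⁻¹) : ℝ) : ℂ) := by
    unfold Hp
    rw [← integral_const_mul, ← integral_complex_ofReal]
    refine setIntegral_congr_fun measurableSet_Ioi ?_
    intro η hη
    exact key η hη
  rw [this]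
  exact Complex.ofReal_im _

end Pool.Agent.Helper38.EC.I_REAL
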