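import Pool.Agent.Helper38.EC.Goals

set_option autoImplicit false

open MeasureTheory Filter Topology Set Complex

namespace Pool.Agent.Helper38.EC.I_VPD

open EC237 EC237.PI

theorem mem_Qd_real {x : ℝ} (hx : 0 < x) : (x : ℂ) ∈ Qd := by
  refine ⟨by simpa using hx.le, by simp, ?_⟩
  simpa using hx.ne'

theorem mem_Qd_sub {x η : ℝ} (hx : 0 < x) (hη : 0 ≤ η) : (x : ℂ) - I * η ∈ Qd := by
  refine ⟨by simpa using hx.le, by simpa using hη, ?_⟩
  intro h
  have := congrArg Complex.re h
  simp at this
  exact hx.ne' this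

theorem sq_norm_sub (x η : ℝ) : ‖(x : ℂ) - I * η‖ ^ 2 = x ^ 2 + η ^ 2 := by
  rw [← Complex.normSq_eq_norm_sq, Complex.normSq_apply]
  simp
  ring

theorem thm (vpa : G_VPA) : G_VPD := by
  intro f hf hC t ht
  obtain ⟨C, hC⟩ := hC
  obtain ⟨h1, h2, h3⟩ := vpa f hf
  have hcont : ContinuousOn (fun x : ℝ => f x) (Ioi 0) := by
    refine hf.1.comp (Complex.continuous_ofReal.continuousOn) ?_
    intro x hx
    exact mem_Qd_real hx
  -- bound on the axis
  have hb : ∀ x : ℝ, 1 ≤ x → ‖f x‖ ≤ |C| * x ^ (-2:ℝ) := by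
    intro x hx
    have hx0 : 0 < x := by linarith
    have hn : ‖(x:ℂ)‖ = x := by simp [abs_of_pos hx0]
    have h := hC x (mem_Qd_real hx0) (by rw [hn]; exact hx)
    rw [hn] at h
    rw [Real.rpow_neg hx0.le, ← div_eq_mul_inv]
    have : x ^ (2:ℝ) = x ^ 2 := by norm_cast
    rw [this]
    exact h.trans (by gcongr; exact le_abs_self C)
  have hint : IntegrableOn (fun x : ℝ => f x) (Ioi t) := by
    set T := max t 1 with hT
    have hT1 : 1 ≤ T := le_max_right _ _
    have hTt : t ≤ T := le_max_left _ _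
    have hu : Ioi t = Ioc t T ∪ Ioi T := (Ioc_union_Ioi_eq_Ioi hTt).symm
    rw [hu]
    refine IntegrableOn.union ?_ ?_
    · have : IntegrableOn (fun x : ℝ => f x) (Icc t T) := by
        refine ContinuousOn.integrableOn_compact isCompact_Icc (hcont.mono ?_)
        intro x hx
        exact lt_of_lt_of_le ht hx.1
      exact this.mono_set Ioc_subset_Icc_self
    · have hi : IntegrableOn (fun x : ℝ => |C| * x ^ (-2:ℝ)) (Ioi T) := by
        have := integrableOn_Ioi_rpow_of_lt (a := -2) (by norm_num) (c := T) (by linarith)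
        exact this.const_mul _
      refine Integrable.mono' hi ?_ ?_
      · refine ContinuousOn.aestronglyMeasurable (hcont.mono ?_) measurableSet_Ioi
        intro x hx
        have : T < x := hx
        simp only [mem_Ioi]; linarith
      · filter_upwards [ae_restrict_mem measurableSet_Ioi] with x hx
        have : T < x := hx
        exact hb x (by linarith)
  refine ⟨hint, ?_⟩
  have hlim0 : Tendsto (fun R : ℝ => GV f R) atTop (𝓝 0) := by
    unfold GV
    have : Tendsto (fun R : ℝ => ∫ η in Ioi (0:ℝ), f ((R:ℂ) - I * η)) atTop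
        (𝓝 (∫ _η in Ioi (0:ℝ), (0:ℂ))) := by
      refine tendsto_integral_filter_of_dominated_convergence
        (fun η : ℝ => |C| * (1 + η ^ 2)⁻¹) ?_ ?_ ?_ ?_
      · filter_upwards [eventually_gt_atTop 0] with R hR
        exact (h1 R (mem_Qd_real hR)).aestronglyMeasurable
      · filter_upwards [eventually_ge_atTop 1] with R hR
        filter_upwards [ae_restrict_mem measurableSet_Ioi] with η hη
        have hη' : (0:ℝ) < η := hη
        have hR0 : 0 < R := by linarith
        have hq := mem_Qd_sub (x := R) hR0 hη'.le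
        have hs := sq_norm_sub R η
        have h1n : 1 ≤ ‖(R:ℂ) - I * η‖ := by
          have : 1 ≤ ‖(R:ℂ) - I * η‖ ^ 2 := by rw [hs]; nlinarith
          by_contra hlt
          push Not at hlt
          have h0 := norm_nonneg ((R:ℂ) - I * η)
          nlinarith
        refine (hC _ hq h1n).trans ?_
        rw [hs, div_eq_mul_inv]
        have : (R ^ 2 + η ^ 2)⁻¹ ≤ (1 + η ^ 2)⁻¹ := by
          apply inv_anti₀ (by positivity)
          nlinarith
        calc C * (R ^ 2 + η ^ 2)⁻¹ ≤ |C| * (R ^ 2 + η ^ 2)⁻¹ := by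
              gcongr; exact le_abs_self C
          _ ≤ |C| * (1 + η ^ 2)⁻¹ := by gcongr
      · exact (integrable_inv_one_add_sq.const_mul _).integrableOn
      · filter_upwards [ae_restrict_mem measurableSet_Ioi] with η hη
        have hη' : (0:ℝ) < η := hη
        have hz : Tendsto (fun R : ℝ => |C| * (R ^ 2)⁻¹) atTop (𝓝 0) := by
          have := (tendsto_pow_atTop (α := ℝ) (n := 2) (by norm_num)).inv_tendsto_atTop
          simpa using this.const_mul |C|
        refine squeeze_zero_norm' ?_ hz
        filter_upwards [eventually_ge_atTop 1] with R hR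
        have hR0 : 0 < R := by linarith
        have hq := mem_Qd_sub (x := R) hR0 hη'.le
        have hs := sq_norm_sub R η
        have h1n : 1 ≤ ‖(R:ℂ) - I * η‖ := by
          have : 1 ≤ ‖(R:ℂ) - I * η‖ ^ 2 := by rw [hs]; nlinarith
          by_contra hlt
          push Not at hlt
          have h0 := norm_nonneg ((R:ℂ) - I * η)
          nlinarith
        refine (hC _ hq h1n).trans ?_
        rw [hs, div_eq_mul_inv]
        have : (R ^ 2 + η ^ 2)⁻¹ ≤ (R ^ 2)⁻¹ := by
          apply inv_anti₀ (by positivity)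
          nlinarith
        calc C * (R ^ 2 + η ^ 2)⁻¹ ≤ |C| * (R ^ 2 + η ^ 2)⁻¹ := by
              gcongr; exact le_abs_self C
          _ ≤ |C| * (R ^ 2)⁻¹ := by gcongr
    have h' := this.const_mul I
    simpa using h'
  have hlim1 : Tendsto (fun R : ℝ => ∫ x in t..R, f x) atTop (𝓝 (∫ x in Ioi t, f x)) :=
    intervalIntegral_tendsto_integral_Ioi t hint tendsto_id
  have hlim2 : Tendsto (fun R : ℝ => ∫ x in t..R, f x) atTop (𝓝 (0 - GV f t)) := by
    refine (hlim0.sub_const (GV f t)).congr' ?_
    filter_upwards [eventually_ge_atTop t] with R hR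
    have := h2 t R 0 ht.le hR le_rfl (Or.inl ht)
    simpa using this
  have := tendsto_nhds_unique hlim1 hlim2
  rw [this]
  ring

end Pool.Agent.Helper38.EC.I_VPD
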