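import Pool.Agent.Helper11.EC.I_FIN
import Pool.Agent.Helper13.EC.I_KSM
import Pool.Agent.Helper18.EC.I_VOL
import Pool.Agent.Helper22.EC.I_VPA
import Pool.Agent.Helper25.EC.I_SERB
import Pool.Agent.Helper28.EC.I_ASY
import Pool.Agent.Helper28.EC.I_IMH
import Pool.Agent.Helper3.EC.I_SERA
import Pool.Agent.Helper32.EC.I_FB
import Pool.Agent.Helper32.EC.I_IB
import Pool.Agent.Helper38.EC.I_HEX
import Pool.Agent.Helper38.EC.I_REAL
import Pool.Agent.Helper38.EC.I_ROT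
import Pool.Agent.Helper38.EC.I_VPD
import Pool.Agent.Helper45.EC.I_G1
import Pool.Agent.Helper49.EC.I_KD
import Pool.Agent.Helper5.EC.I_VPC
import Pool.Agent.Helper5.EC.I_WR
import Pool.Agent.Helper56.EC.I_VPB
import Pool.Agent.Helper60.EC.I_RP
import Pool.Agent.Helper62.EC.I_RECT
import Pool.Agent.Helper65.EC.I_IINT
import Pool.Agent.Helper7.EC.I_K0
import Pool.Agent.Helper77.EC.I_KBD
import Pool.Agent.Helper86.EC.I_KB
import Pool.Agent.Helper89.EC.I_JY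
import Pool.Agent.Helper9.EC.I_HREG
import Pool.Agent.Helper90.EC.I_AX
import Pool.Agent.Helper93.EC.I_C0
import Pool.Agent.Helper99.EC.I_IBD
import Pool.Agent.Helper99.EC.I_KR

/-!
# MP_ecc237_nt, Part I: all packets together, (S1)
-/

set_option autoImplicit false

namespace EC237.PI

theorem g_sera : G_SERA := Pool.Agent.Helper3.EC.I_SERA.thm 
theorem g_serb : G_SERB := Pool.Agent.Helper25.EC.I_SERB.thm 
theorem g_wr : G_WR := Pool.Agent.Helper5.EC.I_WR.thm g_sera g_serb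
theorem g_kd : G_KD := Pool.Agent.Helper49.EC.I_KD.thm 
theorem g_k0 : G_K0 := Pool.Agent.Helper7.EC.I_K0.thm 
theorem g_kb : G_KB := Pool.Agent.Helper86.EC.I_KB.thm g_sera g_serb g_wr g_kd g_k0
theorem g_kr : G_KR := Pool.Agent.Helper99.EC.I_KR.thm 
theorem g_kbd : G_KBD := Pool.Agent.Helper77.EC.I_KBD.thm g_kb g_kr g_wr
theorem g_iint : G_IINT := Pool.Agent.Helper65.EC.I_IINT.thm 
theorem g_ib : G_IB := Pool.Agent.Helper32.EC.I_IB.thm g_iint g_sera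
theorem g_ibd : G_IBD := Pool.Agent.Helper99.EC.I_IBD.thm g_sera g_ib
theorem g_vol : G_VOL := Pool.Agent.Helper18.EC.I_VOL.thm g_sera g_wr g_kbd g_ibd
theorem g_vpa : G_VPA := Pool.Agent.Helper22.EC.I_VPA.thm 
theorem g_ksm : G_KSM := Pool.Agent.Helper13.EC.I_KSM.thm g_serb
theorem g_fb : G_FB := Pool.Agent.Helper32.EC.I_FB.thm g_kbd g_ibd g_ksm g_sera g_wr
theorem g_vpd : G_VPD := Pool.Agent.Helper38.EC.I_VPD.thm g_vpa
theorem g_rp : G_RP := Pool.Agent.Helper60.EC.I_RP.thm g_fb g_vpa g_vpd g_ib g_kb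
theorem g_jy : G_JY := Pool.Agent.Helper89.EC.I_JY.thm g_sera g_serb g_kbd g_ibd
theorem g_ax : G_AX := Pool.Agent.Helper90.EC.I_AX.thm g_jy
theorem g_c0 : G_C0 := Pool.Agent.Helper93.EC.I_C0.thm g_rp g_fb g_vpa g_ksm g_jy g_ax
theorem g_vpb : G_VPB := Pool.Agent.Helper56.EC.I_VPB.thm g_vpa
theorem g_hex : G_HEX := Pool.Agent.Helper38.EC.I_HEX.thm g_rp g_vpa
theorem g_hreg : G_HREG := Pool.Agent.Helper9.EC.I_HREG.thm g_hex g_rp g_vpb g_fb g_ksm g_sera g_wr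
theorem g_asy : G_ASY := Pool.Agent.Helper28.EC.I_ASY.thm g_vol g_wr g_sera
theorem g_real : G_REAL := Pool.Agent.Helper38.EC.I_REAL.thm g_jy
theorem g_rect : G_RECT := Pool.Agent.Helper62.EC.I_RECT.thm g_hreg g_asy g_real
theorem g_vpc : G_VPC := Pool.Agent.Helper5.EC.I_VPC.thm g_vpa
theorem g_g1 : G_G1 := Pool.Agent.Helper45.EC.I_G1.thm g_rp g_fb g_vpc g_jy g_ax
theorem g_imh : G_IMH := Pool.Agent.Helper28.EC.I_IMH.thm g_hex g_rp g_g1 g_c0 g_ib g_kb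
theorem g_rot : G_ROT := Pool.Agent.Helper38.EC.I_ROT.thm g_rp g_g1 g_c0
theorem g_fin : G_FIN := Pool.Agent.Helper11.EC.I_FIN.thm g_ax g_rect g_imh g_rot g_rp g_hreg

end EC237.PI

/-- (S1): Part I of the proof. -/
theorem EC237.S1_holds : EC237.S1 := EC237.PI.g_fin
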