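import Pool.Agent.Helper38.EC.E1Asm
import Pool.Agent.Helper49.EC.E_RAS
import Pool.Agent.Helper33.EC.E_RBT
import Pool.Agent.Helper96.EC.E_RAT
import Pool.Agent.Helper89.EC.E_RBS
import Pool.Agent.Helper67.EC.E_LAT
import Pool.Agent.Helper54.EC.E_BDX
import Pool.Agent.Helper75.EC.E_PS
import Pool.Agent.Helper56.EC.E_XC
import Pool.Agent.Helper27.EC.E_SYM
import Pool.Agent.Helper58.EC.E_BY
import Pool.Agent.Helper85.EC.E_FIN
import Pool.Agent.Helper5.EC.E_FUB
import Pool.Agent.Helper25.EC.E_CSS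
import Pool.Agent.Helper39.EC.D_B2
import Pool.Agent.Helper63.EC.D_B4
import Pool.Agent.Helper6.EC.D_A1
import Pool.Agent.Helper45.EC.D_B1

set_option autoImplicit false

open MeasureTheory Filter Topology Set

namespace EC237

theorem b1_holds : B1 := Pool.Agent.Helper45.EC.D_B1.thm
theorem b2_holds : B2 :=
  Pool.Agent.Helper39.EC.D_B2.thm Pool.Agent.Helper6.EC.D_A1.thm b1_holds
theorem b4_holds : B4 := Pool.Agent.Helper63.EC.D_B4.thm

namespace DX

theorem g_fub : G_FUB := Pool.Agent.Helper5.EC.E_FUB.thm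
theorem g_xc : G_XC := Pool.Agent.Helper56.EC.E_XC.thm
theorem g_css : G_CSS := Pool.Agent.Helper25.EC.E_CSS.thm b2_holds b4_holds
theorem g_sym : G_SYM := Pool.Agent.Helper27.EC.E_SYM.thm g_xc g_css
theorem g_ps : G_PS := Pool.Agent.Helper75.EC.E_PS.thm g_xc b2_holds b4_holds
theorem g_ras : G_RAS := Pool.Agent.Helper49.EC.E_RAS.thm g_fub g_xc g_sym g_ps
theorem g_rat : G_RAT := Pool.Agent.Helper96.EC.E_RAT.thm g_fub g_xc g_sym g_ps
theorem g_rbs : G_RBS := Pool.Agent.Helper89.EC.E_RBS.thm g_fub g_xc g_sym g_ps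
theorem g_rbt : G_RBT := Pool.Agent.Helper33.EC.E_RBT.thm g_fub g_xc g_sym g_ps
theorem g_lat : G_LAT := Pool.Agent.Helper67.EC.E_LAT.thm b4_holds
theorem g_bdx : G_BDX := Pool.Agent.Helper54.EC.E_BDX.thm
theorem g_by : G_BY := Pool.Agent.Helper58.EC.E_BY.thm g_bdx g_lat

/-- (E.1), the reduced form of `Φ_B`. -/
theorem g_e1r : E1R := e1r_of g_ras g_rat g_rbs g_rbt

theorem g_fin : G_FIN := Pool.Agent.Helper85.EC.E_FIN.thm g_e1r g_lat g_by

end DX
end EC237

namespace EC237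

/-- (D.16): `Φ_B(y) → 0` as `y → ∞`. -/
theorem D16_holds : D16 := DX.g_fin

end EC237
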