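import Pool.Agent.Helper38.EC.GoalsE1

set_option autoImplicit false

open MeasureTheory Filter Topology Set

namespace EC237.DX

theorem e1r_of (ras : G_RAS) (rat : G_RAT) (rbs : G_RBS) (rbt : G_RBT) : E1R := by
  intro y hy
  obtain ⟨sA1, sYW, eA1⟩ := ras y hy
  obtain ⟨sA2, eA2⟩ := rat y hy
  obtain ⟨sB1, sE, eB1⟩ := rbs y hy
  obtain ⟨sB2, sYY, eB2⟩ := rbt y hy
  have hfun : (fun s : ℤ × ℤ => e1A (y:ℂ) s) = fun s =>
      (if InCl 2 s then nI (y:ℂ) s * (Ys (y:ℂ) s * Ws (y:ℂ) s) else 0) -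
      (if InCl 2 s then nI (y:ℂ) s * (Ys (y:ℂ) s * Ys (y:ℂ) s) else 0) := by
    funext s
    unfold e1A
    split_ifs
    · ring
    · ring
  have sA : Summable (e1A (y:ℂ)) := by
    have := sYW.sub sYY
    rw [← hfun] at this
    exact this
  refine ⟨sA, sE, ?_⟩
  have hA : ∑' s, e1A (y:ℂ) s =
      (∑' s : ℤ × ℤ, if InCl 2 s then nI (y:ℂ) s * (Ys (y:ℂ) s * Ws (y:ℂ) s) else 0) -
      ∑' s : ℤ × ℤ, if InCl 2 s then nI (y:ℂ) s * (Ys (y:ℂ) s * Ys (y:ℂ) s) else 0 := by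
    rw [← sYW.tsum_sub sYY]
    exact tsum_congr fun s => congrFun hfun s
  have hqA : famA (q2 (y:ℂ)) = fun p =>
      famA (fun v1 v2 v3 v4 => PowerSeries.coeff 2 (Qs (y:ℂ) v1 v2 v3 v4)) p +
      famA (fun v1 v2 v3 v4 => PowerSeries.coeff 2 (Qs (y:ℂ) v2 v3 v4 v1)) p := by
    funext p
    unfold famA q2
    split_ifs
    · exact map_add _ _ _
    · simp
  have hqB : famB (q2 (y:ℂ)) = fun p =>
      famB (fun v1 v2 v3 v4 => PowerSeries.coeff 2 (Qs (y:ℂ) v1 v2 v3 v4)) p +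
      famB (fun v1 v2 v3 v4 => PowerSeries.coeff 2 (Qs (y:ℂ) v2 v3 v4 v1)) p := by
    funext p
    unfold famB q2
    split_ifs
    · exact map_add _ _ _
    · simp
  unfold PhiB
  rw [hqA, hqB, sA1.tsum_add sA2, sB1.tsum_add sB2, eA1, eA2, eB1, eB2, hA]
  ring

end EC237.DX
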