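import Pool.Agent.Helper23.EC.Interface

/-!
# MP_ecc237_nt, Part I (S1): the Bessel side. Definitions and statements of the packets.

Everything takes place on the closed fourth quadrant `Qd` without the origin. `Ic`, `Kc` are the
modified Bessel functions of order 0, given by their power series; `Jr`, `Yr` are their values on the
negative imaginary axis. `GV f t` is the integral of `f` from `t` straight down to `t - i∞`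
(a primitive of `f`). `Hp p t` is the same for `B(t,u)^6 u^p`.
-/

set_option autoImplicit false

open MeasureTheory Filter Topology Set Complex

namespace EC237.PI

/-! ## Definitions -/

/-- The closed fourth quadrant without the origin. It is contained in `Complex.slitPlane`. -/
def Qd : Set ℂ := {z | 0 ≤ z.re ∧ z.im ≤ 0 ∧ z ≠ 0}

/-- The open fourth quadrant. -/
def Qo : Set ℂ := {z | 0 < z.re ∧ z.im < 0}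

/-- `I_0`, power series. -/
noncomputable def Ic (z : ℂ) : ℂ := ∑' k : ℕ, (z ^ 2 / 4) ^ k / (k.factorial : ℂ) ^ 2

/-- The series with harmonic numbers. -/
noncomputable def Sc (z : ℂ) : ℂ :=
  ∑' k : ℕ, (harmonic k : ℂ) * (z ^ 2 / 4) ^ k / (k.factorial : ℂ) ^ 2

/-- `ℓ(z) = -log(z/2) - γ`. -/
noncomputable def ell (z : ℂ) : ℂ :=
  -Complex.log (z / 2) - (Real.eulerMascheroniConstant : ℂ)

/-- `K_0` on the slit plane. -/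
noncomputable def Kc (z : ℂ) : ℂ := ell z * Ic z + Sc z

/-- `J_0(x) = I_0(-ix)`. -/
noncomputable def Jr (x : ℝ) : ℝ := (Ic (-(I * x))).re

/-- `-(π/2) Y_0(x)`: the real part of `K_0(-ix)`. -/
noncomputable def Yr (x : ℝ) : ℝ := Ld x * Jr x + (Sc (-(I * x))).re

/-- `B(t,u) = I_0(t) K_0(u) - K_0(t) I_0(u)`. -/
noncomputable def BB (t u : ℂ) : ℂ := Ic t * Kc u - Kc t * Ic u

/-- `K_0^b I_0^{6-b} z^p`. -/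
noncomputable def fb (b : ℕ) (p : ℤ) (z : ℂ) : ℂ := Kc z ^ b * Ic z ^ (6 - b) * z ^ p

/-- The vertical primitive: `GV f t = i ∫_0^∞ f(t - iη) dη = -∫_t^{t-i∞} f(u) du`. -/
noncomputable def GV (f : ℂ → ℂ) (t : ℂ) : ℂ := I * ∫ η in Ioi (0:ℝ), f (t - I * η)

/-- `H_p(t) = i ∫_0^∞ B(t,t-iη)^6 (t-iη)^p dη`. -/
noncomputable def Hp (p : ℤ) (t : ℂ) : ℂ :=
  I * ∫ η in Ioi (0:ℝ), BB t (t - I * η) ^ 6 * (t - I * η) ^ p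

/-- `a_j = ∫_0^∞ J^{6-j} Y^j η dη`. -/
noncomputable def aj (j : ℕ) : ℝ := ∫ η in Ioi (0:ℝ), Jr η ^ (6 - j) * Yr η ^ j * η

/-- `A_j = lim_{δ→0} (∫_δ^∞ J^{6-j} Y^j dη/η - L_δ^{j+1}/(j+1))`. -/
def IsA (j : ℕ) (A : ℝ) : Prop :=
  Tendsto (fun δ : ℝ => (∫ η in Ioi δ, Jr η ^ (6 - j) * Yr η ^ j / η) -
    Ld δ ^ (j + 1) / ((j : ℝ) + 1)) (𝓝[>] 0) (𝓝 A)

/-- `c_b = Σ_j C(b,j) (iπ/2)^{b-j} A_j - (iπ/2)^{b+1}/(b+1)`. -/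
noncomputable def cb (A : ℕ → ℝ) (b : ℕ) : ℂ :=
  (∑ j ∈ Finset.range (b + 1), (b.choose j : ℂ) * (I * (Real.pi / 2)) ^ (b - j) * (A j : ℂ)) -
    (I * (Real.pi / 2)) ^ (b + 1) / ((b : ℂ) + 1)

/-- `Σ_j C(b,j) (iπ/2)^{b-j} a_j`. -/
noncomputable def gb (b : ℕ) : ℂ :=
  ∑ j ∈ Finset.range (b + 1), (b.choose j : ℂ) * (I * (Real.pi / 2)) ^ (b - j) * (aj j : ℂ)

/-! ## The special functions -/

/-- SERA: the power series and their differential equations `(z w')' = z w`. PROOF: put `s = z²/4`.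
`E(s) = Σ s^k/k!²`, `F(s) = Σ H_k s^k/k!²` are entire (ratio test; `0 ≤ H_k ≤ k`, so the terms are
bounded by `|s|^k/k!` resp. `|s|^k/(k-1)!`), differentiate termwise (e.g. as `FormalMultilinearSeries`,
or `hasDerivAt_tsum`, or by `hasSum` of the power series in `z`). Coefficients: in `z`,
`Ic z = Σ c_k z^{2k}`, `c_k = 1/(4^k k!²)`, `z Ic' = Σ 2k c_k z^{2k}`, its derivative is
`Σ 4k² c_k z^{2k-1}` and `4k² c_k = c_{k-1}`. For `Sc`: `4k² H_k c_k = H_k c_{k-1} =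
H_{k-1} c_{k-1} + c_{k-1}/k` and `Σ_{k≥1} c_{k-1}/k z^{2k-1} = 2 Ic'(z)` because
`2·(2k c_k) z^{2k-1} = (c_{k-1}/k) z^{2k-1}`. -/
def G_SERA : Prop :=
  Differentiable ℂ Ic ∧ Differentiable ℂ Sc ∧
  (∀ z : ℂ, HasDerivAt (fun w => w * deriv Ic w) (z * Ic z) z) ∧
  (∀ z : ℂ, HasDerivAt (fun w => w * deriv Sc w) (z * Sc z + 2 * deriv Ic z) z)

/-- SERB: values near 0, and real values on the two axes. PROOF: `|Ic z - 1| ≤ Σ_{k≥1} (|z|²/4)^k ≤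
|z|²/3`, `|Sc z| ≤ Σ_{k≥1} H_k (|z|²/4)^k/k!² ≤ Σ_{k≥1} k/k! (|z|^2/4)^k ≤ (|z|²/4) e^{1/4}` for
`|z| ≤ 1`. Real: for `z = x` or `z = -ix` (also `z = 0`) `z²` is real, so all terms are (casts of)
real numbers. -/
def G_SERB : Prop :=
  (∀ z : ℂ, ‖z‖ ≤ 1 → ‖Ic z - 1‖ ≤ ‖z‖ ^ 2 ∧ ‖Sc z‖ ≤ ‖z‖ ^ 2) ∧
  (∀ x : ℝ, (Ic x).im = 0 ∧ (Sc x).im = 0 ∧ (Ic (-(I * x))).im = 0 ∧ (Sc (-(I * x))).im = 0)

/-- WR (assuming SERA, SERB): `Kc` solves the same equation on the slit plane, and the Wronskian.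
PROOF: `ell' = -1/z`, so `z Kc' = -Ic + ell·(z Ic') + z Sc'`, and its derivative is
`-Ic' - Ic' + ell·(z Ic) + z Sc + 2 Ic' = z Kc`. The function `W = Ic·(z Kc') - Kc·(z Ic')` has
derivative 0 on the slit plane (preconnected, `Complex.isPreconnected_slitPlane` or star convex:
`starConvex_one_slitPlane`), so it is constant, and its limit at `0` along the positive axis is
`-1`: `z Kc' → -1` (as `ell·z·Ic' → 0` because `z Ic' = O(z²)`), `Kc·z Ic' → 0`. (Use that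
`deriv Ic 0 = 0` and differentiability of `deriv Ic`, so `z·Ic'(z) = O(z²)`.) -/
def G_WR : Prop :=
  (∀ z ∈ slitPlane, DifferentiableAt ℂ Kc z ∧ HasDerivAt (fun w => w * deriv Kc w) (z * Kc z) z) ∧
  (∀ z ∈ slitPlane, Ic z * deriv Kc z - Kc z * deriv Ic z = -z⁻¹)

/-- IINT: `Ic z = (1/π)∫_0^π exp(z cos θ)dθ` for all complex `z`. PROOF: expand the exponential
(uniformly convergent on the interval, `hasSum_integral_of_summable_norm` or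
`intervalIntegral.hasSum_integral_of_dominated_convergence`), `∫_0^π cos^n = 0` for odd `n`
(symmetry `θ ↦ π - θ`) and `(1/π)∫_0^π cos^{2k} = (2k)!/(4^k k!²)` (`integral_cos_pow`, by
induction: `∫_0^π cos^{n+2} = (n+1)/(n+2) ∫_0^π cos^n`). -/
def G_IINT : Prop := ∀ z : ℂ,
  Ic z = (1 / Real.pi : ℝ) * ∫ θ in (0:ℝ)..Real.pi, Complex.exp (z * (Real.cos θ : ℝ))

/-- IB (assuming IINT, SERA): consequences. PROOF: (1) cast. (2) `|exp(z cos θ)| = exp(Re z cos θ)`.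
(3) `Ic' z = (1/π)∫ cos θ exp(z cos θ)dθ` (differentiation under the integral sign,
`intervalIntegral.hasDerivAt_integral_of_dominated_loc_of_deriv_le`), `|cos| ≤ 1`. (4) `Ib x ≤
e^x` trivially; for `x > 0`: `1 - cos θ ≥ 2θ²/π²` on `[0,π]` (`Real.cos_le_one_sub_mul_sq...`, or
`Real.cos_quadratic_upper_bound`), so `Ib x ≤ (e^x/π)∫_0^∞ exp(-2xθ²/π²)dθ = (e^x/π)·(1/2)·
√(π·π²/(2x)) = e^x √(π/(8x))·... ≤ e^x/√x`; together `Ib x·√(1+x) ≤ 2 e^x` (if `x ≤ 1` the first,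
if `x ≥ 1` the second with `√(1+x) ≤ √2·√x`). -/
def G_IB : Prop :=
  (∀ t : ℝ, Ic t = (Ib t : ℂ)) ∧ (∀ z : ℂ, ‖Ic z‖ ≤ Ib z.re) ∧ (∀ z : ℂ, ‖deriv Ic z‖ ≤ Ib z.re) ∧
  (∀ x : ℝ, 0 ≤ x → Ib x * Real.sqrt (1 + x) ≤ 2 * Real.exp x)

/-- KD: the differential equation of the frozen `K`. PROOF: `K1 t = ∫_0^∞ cosh u e^{-t cosh u}du`.
`Kb' = -K1` and `K1' = -∫ cosh² u e^{-t cosh u}du` by differentiation under the integral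
(`hasDerivAt_integral_of_dominated_loc_of_deriv_le`; domination for `t ≥ t0 > 0`:
`cosh^k u e^{-t0 cosh u}` is integrable on `(0,∞)`, e.g. `cosh u ≥ u²/2`, `cosh^k u e^{-t0 cosh u} ≤
C e^{-(t0/2) cosh u} ≤ C e^{-(t0/2) u²/2}`). So `(t K1)' = ∫ (cosh u - t cosh² u) e^{-t cosh u} du =
∫ (d/du)(sinh u e^{-t cosh u}) du - t ∫ e^{-t cosh u}du = 0 - t Kb`
(`integral_Ioi_of_hasDerivAt_of_tendsto`). -/
def G_KD : Prop := ∃ K1 : ℝ → ℝ, ∀ t : ℝ, 0 < t →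
  HasDerivAt Kb (-(K1 t)) t ∧ HasDerivAt (fun s => s * K1 s) (-(t * Kb t)) t

/-- K0: the frozen `K` near 0. PROOF: (a) `0 ≤ ∫_0^∞ exp(-(t/2)e^u)du - Kb t =
∫ exp(-(t/2)e^u)(1 - exp(-(t/2)e^{-u}))du ≤ ∫ (t/2)e^{-u}du = t/2`.
(b) `∫_0^∞ exp(-(t/2)e^u)du = ∫_{t/2}^∞ e^{-s}ds/s =: E(t/2)`.
(c) `E(x) = -e^{-x} log x + ∫_x^∞ e^{-s} log s ds` by parts, so `E(x) + log x → ∫_0^∞ e^{-s}log s ds
= Γ'(1) = -γ` as `x → 0+` (Mathlib: `Complex.hasDerivAt_GammaIntegral`,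
`Real.eulerMascheroniConstant_eq_neg_deriv` or similar; `(1-e^{-x}) log x → 0`). -/
def G_K0 : Prop := Tendsto (fun t : ℝ => Kb t - Ld t) (𝓝[>] 0) (𝓝 0)

/-- KB (assuming SERA, SERB, WR, KD, K0): the frozen `K` is `Kc` on the positive axis. PROOF: on
`(0,∞)` the real functions `k(t) = (Kc t).re`, `i(t) = (Ic t).re` (`Kc t`, `Ic t` are real there:
SERB, and `log` of a positive real) and `Kb` solve `(t w')' = t w`; put `d = Kb - k`. The functions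
`t(d i' - d' i)`, `t(d k' - d' k)` have derivative 0 on `(0,∞)`, so they are constants `c1`, `c2`
and by the Wronskian (`t(i k' - i' k) = -1`) `d = c1 k - c2 i`. As `t → 0+`: `d → 0` (K0 and
`k - Ld → 0`, because `k = Ld·i + Sc`, `i - 1 = O(t²)`), `i → 1`, `k → ∞`; hence `c1 = 0`, then
`c2 = 0`. -/
def G_KB : Prop := ∀ t : ℝ, 0 < t → Kc t = (Kb t : ℂ)

/-- KR: for `t > 0` the substitution `τ = t(cosh u - 1)` gives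
`Kb t = e^{-t} t^{-1/2} ∫_0^∞ e^{-τ} τ^{-1/2} (2 + τ/t)^{-1/2} dτ`. PROOF:
`integral_image_eq_integral_abs_deriv_smul` or `integral_comp_mul_deriv_Ioi`; `dτ = t sinh u du`,
`τ^{-1/2}(2+τ/t)^{-1/2} = (t(cosh u-1))^{-1/2}(cosh u+1)^{-1/2} = t^{-1/2}/sinh u`. -/
def G_KR : Prop := ∀ t : ℝ, 0 < t → Kb t = Real.exp (-t) * (Real.sqrt t)⁻¹ *
  ∫ τ in Ioi (0:ℝ), Real.exp (-τ) * (Real.sqrt τ)⁻¹ * (Real.sqrt (2 + τ / t))⁻¹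

/-- KBD (assuming KB, KR, WR): the bound for `Kc` in the closed right half plane. PROOF: for
`Re z > 0` put `R z = ∫_0^∞ e^{-τ} τ^{-1/2} (2+τ/z)^{-1/2}dτ` (complex power; `Re(2+τ/z) ≥ 2`, so
the base is in the slit plane and `|(2+τ/z)^{-1/2}| = |2+τ/z|^{-1/2} ≤ 2^{-1/2}`). `R` is
differentiable on the right half plane (`hasDerivAt_integral_of_dominated_loc_of_deriv_le`; the
derivative in `z` is `(1/2)(2+τ/z)^{-3/2} τ/z²`, dominated by `C e^{-τ} τ^{1/2}` near each `z0`).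
By KR and KB, `Kc z = e^{-z} z^{-1/2} R z` for `z` real positive, so by the identity theorem
(`AnalyticOnNhd.eqOn_of_preconnected_of_frequently_eq`, half plane convex) for `Re z > 0`. Hence
`|Kc z| ≤ e^{-Re z}|z|^{-1/2} 2^{-1/2} Γ(1/2) = √(π/2) e^{-Re z}|z|^{-1/2}` for `Re z > 0`, and by
continuity of `Kc` on the slit plane for `Re z ≥ 0`, `z ≠ 0` (limit along `z + 1/n`). -/
def G_KBD : Prop := ∀ z : ℂ, 0 ≤ z.re → z ≠ 0 →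
  ‖Kc z‖ * Real.sqrt ‖z‖ ≤ 2 * Real.exp (-z.re)

/-- IBD (assuming SERA, IB): the bound for `Ic` in the closed quadrant. PROOF: `z = x - iη`, `x ≥ 0`,
`η ≥ 0`. If `η ≤ 1`: `|Ic z| ≤ Ib x ≤ 2e^x(1+x)^{-1/2}` and `|z| ≤ 1 + x`. If `η ≥ 1`: fix `x`, put
`h(η) = z^{1/2} Ic z` (`z = x - iη`, slit plane), `h' = -i(z^{1/2} Ic' + z^{-1/2} Ic/2)`,
`h'' = -(1 - 1/(4z²))h` (from `Ic'' = Ic - Ic'/z`). For `E = |h|² + |h'|²`: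
`E' = 2 Re(conj(h') (h'' + h)) = 2 Re(conj(h') h/(4z²)) ≤ E/(4|z|²) ≤ E/(4η²)`, so
`E(η) exp(1/(4η))` is antitone on `[1,∞)` and `E(η) ≤ e^{1/4} E(1)`. At `η = 1`, `z = x - i`,
`1 ≤ |z| ≤ 1 + x`, `|Ic|, |Ic'| ≤ Ib x`, so `E(1) ≤ C |z| (Ib x)² ≤ C (1+x)(Ib x)² ≤ C' e^{2x}`. -/
def G_IBD : Prop := ∃ C : ℝ, ∀ z ∈ Qd, ‖Ic z‖ * Real.sqrt ‖z‖ ≤ C * Real.exp z.re

/-- KSM (assuming SERB): size near 0. PROOF: `|ell z| ≤ |log(|z|/2)| + π/2 + γ ≤ C|z|^{-1/24}`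
(`arg z ∈ [-π/2,0]`, `Real.abs_log_mul_self_rpow_lt` or `Real.add_one_le_exp`),
`Kc = ell·Ic + Sc`, `|Ic - 1| ≤ |z|²`, `|Sc| ≤ |z|²`;
`Kc^b Ic^{6-b} - ell^b = (Kc^b - ell^b) Ic^{6-b} + ell^b (Ic^{6-b} - 1)`,
`|Kc - ell| ≤ |z|²(1+|ell|) ≤ C|z|`, `|x^b - y^b| ≤ b max(|x|,|y|)^{b-1}|x-y| ≤ C |z|^{-5/24}|z|`. -/
def G_KSM : Prop := ∃ C : ℝ, ∀ z ∈ Qd, ‖z‖ ≤ 1 →
  ‖Ic z‖ ≤ 2 ∧ ‖ell z‖ ≤ C * ‖z‖ ^ (-(1 / 24) : ℝ) ∧ ‖Kc z‖ ≤ C * ‖z‖ ^ (-(1 / 24) : ℝ) ∧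
  ∀ b : ℕ, b ≤ 6 → ‖Kc z ^ b * Ic z ^ (6 - b) - ell z ^ b‖ ≤ C * ‖z‖ ^ (1 / 2 : ℝ)

/-- FB (assuming KBD, IBD, KSM, SERA, WR): properties of `fb b p`, `b ≤ 6`, `p = ±1`. PROOF:
continuity and differentiability from SERA, WR (`Qd ⊆ slitPlane`, `Qo ⊆ slitPlane`). For `‖z‖ ≤ 1`:
KSM, `‖Kc‖^b‖Ic‖^{6-b} ≤ C‖z‖^{-b/24} ≤ C‖z‖^{-1/4}`. For `‖z‖ ≥ 1`: KBD, IBD:
`‖Kc‖^b‖Ic‖^{6-b}‖z‖^3 ≤ C e^{-b Re z}e^{(6-b)Re z}`, `‖z^p‖ ≤ ‖z‖`. -/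
def G_FB : Prop := ∃ C : ℝ, 0 < C ∧ ∀ b : ℕ, b ≤ 6 → ∀ p : ℤ, (p = 1 ∨ p = -1) →
  ContinuousOn (fb b p) Qd ∧ DifferentiableOn ℂ (fb b p) Qo ∧
  (∀ z ∈ Qd, 1 ≤ ‖z‖ → ‖fb b p z‖ ≤ C * Real.exp ((6 - 2 * (b:ℝ)) * z.re) / ‖z‖ ^ 2) ∧
  (∀ z ∈ Qd, ‖z‖ ≤ 1 → ‖fb b 1 z‖ ≤ C ∧ ‖fb b (-1) z‖ ≤ C * ‖z‖ ^ (-(5 / 4) : ℝ))

/-! ## The vertical primitive of a function holomorphic in the quadrant -/

/-- Admissible integrands. -/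
def VAdm (f : ℂ → ℂ) : Prop :=
  ContinuousOn f Qd ∧ DifferentiableOn ℂ f Qo ∧
  ∀ X : ℝ, ∃ C : ℝ, ∀ z ∈ Qd, z.re ≤ X → 1 ≤ ‖z‖ → ‖f z‖ ≤ C / ‖z‖ ^ 2

/-- VPA: PROOF: (1) `η ↦ f(t-iη)` is continuous on `[0,∞)` (`t - iη ∈ Qd`) and for `η ≥ 1`
`|f(t-iη)| ≤ C/|t-iη|² ≤ C/η²`. (3) is `setIntegral` additivity and the substitution `s = y - η`.
(2) Cauchy's theorem (`Complex.integral_boundary_rect_eq_zero_of_continuousOn_of_differentiableOn`)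
on the rectangle `[x1,x2]×[-R,y]` (its interior is in `Qo`, the closed rectangle in `Qd`):
`∫_{x1}^{x2} f(x+iy)dx = ∫_{x1}^{x2} f(x-iR)dx + i∫_{-R}^y f(x2+is)ds - i∫_{-R}^y f(x1+is)ds`,
and let `R → ∞`: the first term is `≤ (x2-x1) C/R²`, the other two tend to `GV f (x2+iy)`,
`GV f (x1+iy)` by (1) (`i∫_{-∞}^y f(x+is)ds = i∫_0^∞ f(x+iy-iη)dη`). -/
def G_VPA : Prop := ∀ f : ℂ → ℂ, VAdm f →
  (∀ t ∈ Qd, IntegrableOn (fun η : ℝ => f (t - I * η)) (Ioi 0)) ∧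
  (∀ x1 x2 y : ℝ, 0 ≤ x1 → x1 ≤ x2 → y ≤ 0 → (0 < x1 ∨ y < 0) →
    GV f (x2 + y * I) - GV f (x1 + y * I) = ∫ x in x1..x2, f (x + y * I)) ∧
  (∀ x y1 y2 : ℝ, 0 ≤ x → y1 ≤ y2 → y2 ≤ 0 → (0 < x ∨ y2 < 0) →
    GV f (x + y2 * I) - GV f (x + y1 * I) = I * ∫ y in y1..y2, f (x + y * I))

/-- VPB (assuming VPA): `GV f` is a primitive of `f` in the open quadrant and is continuous on `Qd`.
PROOF: derivative at `t ∈ Qo`: for small `h` with `t + h ∈ Qo`, combining (2) and (3) of VPA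
`GV f (t+h) - GV f t = ∫ f over a horizontal and a vertical segment`, `= f(t) h + o(h)` by the
continuity of `f` at `t` (or Mathlib's file `Mathlib/Analysis/Complex/HasPrimitives.lean`,
`wedgeIntegral`: on a disc around `t` in `Qo`, `GV f z - GV f t` is the wedge integral).
Continuity at `t ∈ Qd`: the same formula, `f` is bounded near `t` in `Qd`, so
`|GV f s - GV f t| ≤ 2M|s-t|` for `s ∈ Qd` close to `t`. (Take care of the order: to connect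
`t = x + iy`, `s = x' + iy'` use the corner with the imaginary part `min y y'`, so that the path
stays in `Qd` near `t`, or first move horizontally at the lower of the two heights.) -/
def G_VPB : Prop := ∀ f : ℂ → ℂ, VAdm f →
  ContinuousOn (GV f) Qd ∧ ∀ t ∈ Qo, HasDerivAt (GV f) (f t) t

/-- VPC (assuming VPA): limit at 0. PROOF: dominated convergence: `|f(x-iη)| ≤ C` if `|x-iη| ≤ 1`
and `≤ C'/|x-iη|² ≤ C'/η²` if `|x-iη| ≥ 1` (for `0 < x ≤ 1`, `VAdm` with `X = 1`); so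
`|f(x-iη)| ≤ max(C,C')·min(1,η^{-2})`-type bound: for `η ≤ 1` use `max C C'`, for `η > 1` use
`C'/η²`. Pointwise convergence by continuity of `f` at `-iη ∈ Qd`. -/
def G_VPC : Prop := ∀ f : ℂ → ℂ, VAdm f → (∃ C : ℝ, ∀ z ∈ Qd, ‖z‖ ≤ 1 → ‖f z‖ ≤ C) →
  IntegrableOn (fun η : ℝ => f (-(I * η))) (Ioi 0) ∧
  Tendsto (fun x : ℝ => GV f x) (𝓝[>] 0) (𝓝 (I * ∫ η in Ioi (0:ℝ), f (-(I * η))))

/-- VPD (assuming VPA): if `f` decays uniformly, `GV f` is the integral to `+∞`. PROOF: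
`|GV f x| ≤ ∫_0^∞ C dη/(x²+η²) = Cπ/(2x) → 0` as `x → ∞`, and `GV f R - GV f t = ∫_t^R f` (VPA (2)
with `y = 0`); `f` is integrable on `(t,∞)`: continuous, `≤ C/x²` for `x ≥ 1`. -/
def G_VPD : Prop := ∀ f : ℂ → ℂ, VAdm f →
  (∃ C : ℝ, ∀ z ∈ Qd, 1 ≤ ‖z‖ → ‖f z‖ ≤ C / ‖z‖ ^ 2) → ∀ t : ℝ, 0 < t →
  IntegrableOn (fun x : ℝ => f x) (Ioi t) ∧ GV f t = -∫ x in Ioi t, f x

/-! ## Values on the axes -/

/-- JY (assuming SERA, SERB, KBD, IBD): `Ic`, `Kc` on the negative imaginary axis. PROOF: (1), (2):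
`Complex.log(-iη/2) = log(η/2) - iπ/2` for `η > 0`, so `ell(-iη) = Ld η + iπ/2`; use SERB. (3) from
KBD and IBD at `z = -iη`: `Yr`, `(π/2) Jr` are the real and imaginary part of `Kc(-iη)`. (4) SERB
with `|z| = η`: `|Jr - 1| ≤ η²`, `|Yr - Ld η·Jr| ≤ η²`, `|Ld η| ≤ C η^{-1/24}` for `0 < η ≤ 1`. (5)
continuity of `Ic`, `Sc`, `log`. -/
def G_JY : Prop :=
  (∀ η : ℝ, 0 < η → Ic (-(I * η)) = (Jr η : ℂ) ∧
    Kc (-(I * η)) = (Yr η : ℂ) + I * (Real.pi / 2) * (Jr η : ℂ) ∧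
    ell (-(I * η)) = (Ld η : ℂ) + I * (Real.pi / 2)) ∧
  (∃ C : ℝ, (∀ η : ℝ, 1 ≤ η → |Jr η| ≤ C / Real.sqrt η ∧ |Yr η| ≤ C / Real.sqrt η) ∧
    (∀ η : ℝ, 0 < η → η ≤ 1 → |Jr η| ≤ C ∧ |Yr η| ≤ C * η ^ (-(1 / 24) : ℝ) ∧
      ∀ j : ℕ, j ≤ 6 → |Jr η ^ (6 - j) * Yr η ^ j - Ld η ^ j| ≤ C * η ^ (1 / 2 : ℝ))) ∧
  ContinuousOn Jr (Ioi 0) ∧ ContinuousOn Yr (Ioi 0)

/-- AX (assuming JY): the constants `A_j` exist, and the integrals `a_j` converge. PROOF: with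
`φ = Jr^{6-j}Yr^j`: `|φ| ≤ C η^{-3}` for `η ≥ 1`, `|φ| ≤ C η^{-1/4}` for `η ≤ 1`, `φ` continuous:
(1) `φ η` integrable on `(0,∞)`; (2) `φ/η` integrable on `(δ,∞)`; (3) `(φ - Ld^j)/η = O(η^{-1/2})` is
integrable on `(0,1)` and `∫_δ^1 Ld^j dη/η = (Ld δ^{j+1} - Ld 1^{j+1})/(j+1)` since `Ld' = -1/η`. -/
def G_AX : Prop := (∃ A : ℕ → ℝ, ∀ j : ℕ, j ≤ 6 → IsA j (A j)) ∧
  (∀ j : ℕ, j ≤ 6 → IntegrableOn (fun η => Jr η ^ (6 - j) * Yr η ^ j * η) (Ioi 0)) ∧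
  (∀ j : ℕ, j ≤ 6 → ∀ δ : ℝ, 0 < δ → IntegrableOn (fun η => Jr η ^ (6 - j) * Yr η ^ j / η) (Ioi δ))

/-- RP (assuming FB, VPA, VPD, IB, KB): the functions `GV (fb b p)` on the positive axis. PROOF:
`fb b p` is admissible by FB (`VAdm`: for `Re z ≤ X`, `exp((6-2b)Re z) ≤ exp(6|X|)`), and
`fb b p x = (Kb x^b Ib x^{6-b} x^p : ℝ)` for real `x > 0`. (1) VPA (2) with `y = 0`. (2) VPD, since
for `b ≥ 3` the exponential in FB is `≤ 1`. (3) integrability near 0 and at infinity from FB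
(`exp(-x)·x^2` decay if `b ≥ 4`, `k = 3`; `Kb`, `Ib` are continuous on `(0,∞)`). -/
def G_RP : Prop := (∀ b : ℕ, b ≤ 6 → ∀ p : ℤ, (p = 1 ∨ p = -1) → VAdm (fb b p)) ∧
  (∀ b : ℕ, b ≤ 6 → ∀ p : ℤ, (p = 1 ∨ p = -1) → ∀ s t : ℝ, 0 < s → s ≤ t →
    GV (fb b p) t - GV (fb b p) s = ((∫ x in s..t, Kb x ^ b * Ib x ^ (6 - b) * x ^ p : ℝ) : ℂ)) ∧
  (∀ b : ℕ, 3 ≤ b → b ≤ 6 → ∀ p : ℤ, (p = 1 ∨ p = -1) → ∀ t : ℝ, 0 < t →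
    IntegrableOn (fun x : ℝ => Kb x ^ b * Ib x ^ (6 - b) * x ^ p) (Ioi t) ∧
    GV (fb b p) t = ((-∫ x in Ioi t, Kb x ^ b * Ib x ^ (6 - b) * x ^ p : ℝ) : ℂ)) ∧
  (∀ b : ℕ, 3 ≤ b → b ≤ 6 → IntegrableOn (fun x : ℝ => Kb x ^ b * Ib x ^ (6 - b) * x) (Ioi 0)) ∧
  (∀ b : ℕ, 4 ≤ b → b ≤ 6 → IntegrableOn (fun x : ℝ => Kb x ^ b * Ib x ^ (6 - b) * x ^ 3) (Ioi 0))

/-- G1 (assuming RP, FB, VPC, JY, AX): `p = 1`, limit at 0. PROOF: VPC for `f = fb b 1` (bounded near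
0 by FB): the limit is `i∫_0^∞ (Yr + iπJr/2)^b Jr^{6-b} (-iη)dη = ∫ (Yr + iπ Jr/2)^b Jr^{6-b} η dη`;
binomial theorem and linearity of the integral (AX). -/
def G_G1 : Prop := ∀ b : ℕ, b ≤ 6 →
  Tendsto (fun δ : ℝ => GV (fb b 1) δ) (𝓝[>] 0) (𝓝 (gb b))

/-- C0 (assuming RP, FB, VPA, KSM, JY, AX): `p = -1`, behaviour at 0. PROOF: `f = fb b (-1)`, `0 < δ ≤
1/2`. VPA: `GV f δ - GV f (δ - iδ) = i∫_{-δ}^0 f(δ+is)ds`, `GV f (δ-iδ) - GV f (-iδ) =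
∫_0^δ f(x-iδ)dx`. By KSM, `f(u) = ell(u)^b/u + O(|u|^{-1/2})`, so the two integrals are, up to
`O(δ^{1/2})`, those of `ell^b/u`, which has the primitive `-ell^{b+1}/(b+1)` on the slit plane
(`ell' = -1/u`); hence `GV f δ - GV f (-iδ) = (ell(-iδ)^{b+1} - ell(δ)^{b+1})/(b+1) + o(1)` with
`ell(δ) = Ld δ =: L`, `ell(-iδ) = L + iπ/2`. Further `GV f (-iδ) = i∫_δ^∞ f(-iη)dη =
-∫_δ^∞ (Yr+iπJr/2)^b Jr^{6-b}dη/η = -Σ_j C(b,j)(iπ/2)^{b-j}(A_j + L^{j+1}/(j+1) + o(1))`, and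
`Σ_j C(b,j)(iπ/2)^{b-j} L^{j+1}/(j+1) = ((L+iπ/2)^{b+1} - (iπ/2)^{b+1})/(b+1)` (b ≤ 6: check the
seven cases by `ring`/`norm_num [Finset.sum_range_succ, Nat.choose]`, or differentiate). Sum:
`GV f δ = -L^{b+1}/(b+1) - c_b + o(1)`. -/
def G_C0 : Prop := ∀ A : ℕ → ℝ, (∀ j : ℕ, j ≤ 6 → IsA j (A j)) → ∀ b : ℕ, b ≤ 6 →
  Tendsto (fun δ : ℝ => GV (fb b (-1)) δ + ((Ld δ ^ (b + 1) / ((b:ℝ) + 1) : ℝ) : ℂ)) (𝓝[>] 0)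
    (𝓝 (-cb A b))

/-! ## The functions `H_p` -/

/-- HEX (assuming RP, VPA): PROOF: binomial theorem for `(Ic t·Kc u - Kc t·Ic u)^6` (constants:
`Ic t`, `Kc t`), linearity of the integral, integrability from VPA (1). -/
def G_HEX : Prop := ∀ p : ℤ, (p = 1 ∨ p = -1) → ∀ t ∈ Qd,
  Hp p t = ∑ k ∈ Finset.range 7, (Nat.choose 6 k : ℂ) * (-1) ^ k * Ic t ^ (6 - k) * Kc t ^ k *
    GV (fb (6 - k) p) t

/-- HREG (assuming HEX, RP, VPB, FB, KSM, SERA, WR): PROOF: (1), (2) from HEX and VPB. (3) for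
`t ∈ Qd`, `‖t‖ ≤ 1`, `f = fb b p`: `|f(u)| ≤ C|u|^{-5/4}` if `|u| ≤ 1` (also for `p = 1`),
`u = t - iη`, `|u| ≥ |t|`, `|u| ≥ η`, so `|f(u)| ≤ C|t|^{-1/2} η^{-3/4}` if `|u| ≤ 1`
(`|u|^{-5/4} = |u|^{-1/2}|u|^{-3/4}`), and `≤ C/|u|² ≤ C/max(1,η)²` if `|u| ≥ 1` (here `Re u ≤ 1`,
so the exponential in FB is bounded). Hence `|GV f t| ≤ C|t|^{-1/2}`; `|Ic^{6-k}Kc^k| ≤ C|t|^{-1/4}`
by KSM. -/
def G_HREG : Prop := ∀ p : ℤ, (p = 1 ∨ p = -1) →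
  ContinuousOn (Hp p) Qd ∧ DifferentiableOn ℂ (Hp p) Qo ∧
  ∃ C : ℝ, ∀ t ∈ Qd, ‖t‖ ≤ 1 → ‖Hp p t‖ ≤ C * ‖t‖ ^ (-(3 / 4) : ℝ)

/-- VOL (assuming SERA, WR, KBD, IBD): Volterra estimate. PROOF: fix `t ∈ Qd`, `‖t‖ ≥ 1`, `u(η) =
t - iη` (in `Qd`, `Re u = Re t`, `|u|² ≥ |t|² + η²`), `w(η) = u^{1/2} BB(t,u)` (complex power, slit
plane). (a) `|w| ≤ |u|^{1/2}(|Ic t||Kc u| + |Kc t||Ic u|) ≤ C|t|^{-1/2}` (the exponentials cancel).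
(b) `w(0) = 0`, `w' = -i(u^{1/2} B_u + u^{-1/2}B/2)`, `B_u = Ic t·Kc' u - Kc t·Ic' u`, so
`w'(0) = -i t^{1/2}·(-1/t) = i t^{-1/2}` (Wronskian). (c) `w'' = -(1 - 1/(4u²)) w` from
`B_uu + B_u/u = B`. (d) Put `g(s) = w(s) - i t^{-1/2} sin s`, `g' = w' - i t^{-1/2}cos s`,
`g'' + g = w/(4u²)`; then for fixed `η` the function `s ↦ g'(s) sin(η-s) + g(s) cos(η-s)` has
derivative `sin(η-s) w(s)/(4u(s)²)`, value `0` at `s = 0` and `g(η)` at `s = η`; so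
`|g(η)| ≤ ∫_0^η |w|/(4|u|²) ≤ C|t|^{-1/2}∫_0^∞ ds/(4(|t|²+s²)) = C|t|^{-1/2}·π/(8|t|)`.
(e) `X = t^{1/2} w = t^{1/2}u^{1/2}B` satisfies `|X| ≤ C`, `|X - i sin η| ≤ C'/|t|`, and `X^6 =
t³u³B^6`, `(i sin η)^6 = -sin^6 η`, `|X^6 - Y^6| ≤ 6 max(|X|,|Y|)^5|X-Y|`. -/
def G_VOL : Prop := ∃ C : ℝ, ∀ t ∈ Qd, 1 ≤ ‖t‖ → ∀ η : ℝ, 0 ≤ η →
  ‖t ^ 3 * (t - I * η) ^ 3 * BB t (t - I * η) ^ 6 + ((Real.sin η ^ 6 : ℝ) : ℂ)‖ ≤ C / ‖t‖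

/-- ASY (assuming VOL, WR, SERA): PROOF: `u = t - iη`, `|u|² ≥ |t|²+η²`,
`B^6 u^p = t^{-3}u^{p-3}(-sin^6 η + ε)`, `|ε| ≤ C/|t|` (and `≤ C`). `p = -1`:
`|H| ≤ C|t|^{-3}∫|u|^{-4}dη ≤ C|t|^{-3}|t|^{-2}∫dη/(|t|²+η²) = C'|t|^{-6}`. `p = 1`:
`∫|ε||t|^{-3}|u|^{-2} ≤ C|t|^{-4}π/(2|t|)`; main term `-i t^{-3}∫ sin^6η u^{-2}dη` with `sin^6η =
5/16 + Q'(η)`, `Q = -(15/64) sin 2η + (3/64) sin 4η - (1/192) sin 6η`, `|Q| ≤ 1`;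
`∫_0^∞ u^{-2}dη = i/t` (primitive `-i u^{-1}`), `∫Q' u^{-2} = -∫ Q·2i u^{-3}dη = O(|t|^{-2})`. So
`H_1 = -i t^{-3}(5/16)(i/t) + O(|t|^{-5}) = (5/16)t^{-4} + O(|t|^{-5})`. -/
def G_ASY : Prop := ∃ C : ℝ, ∀ t ∈ Qd, 1 ≤ ‖t‖ →
  ‖Hp 1 t - 5 / 16 * (t ^ 4)⁻¹‖ ≤ C / ‖t‖ ^ 5 ∧ ‖Hp (-1) t‖ ≤ C / ‖t‖ ^ 6

/-- REAL (assuming JY): `H_p` is real on the negative imaginary axis. PROOF: for `t = -iξ`,
`u = -iξ' `, `ξ' = ξ + η`: `BB t u = J(ξ)(Yr(ξ')+iπJ(ξ')/2) - (Yr(ξ)+iπJ(ξ)/2)J(ξ') =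
J(ξ)Yr(ξ') - Yr(ξ)J(ξ')` is real; `i·u^1 = ξ'`, `i·u^{-1} = -1/ξ'` (as `1/(-iξ') = i/ξ'`). Put the
factor `i` under the integral sign; the integral of a function with real values is real
(`integral_ofReal`), also if it does not converge. -/
def G_REAL : Prop := ∀ p : ℤ, (p = 1 ∨ p = -1) → ∀ ξ : ℝ, 0 < ξ → (Hp p (-(I * ξ))).im = 0

/-- RECT (assuming HREG, ASY, REAL): PROOF: `F(t) = t^k H_p(t)`, `F(0) = 0`, `k ≥ 1`, is continuous on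
the closed square `[0,R]×[-R,0]` (at 0: `|F| ≤ C|t|^{1/4}`) and differentiable in the interior, so
`∫_0^R F(x)dx = ∫_0^R F(x-iR)dx + i∫_{-R}^0 F(R+iy)dy - i∫_{-R}^0 F(iy)dy`. The last term is real
for `k = 1, 3`: `i(-iξ)^k H_p(-iξ)` is real for `ξ > 0` by REAL. For `p = -1`: `|F| ≤ C|t|^{-3}` on
the two far sides: `→ 0`. For `p = 1`, `k = 3`: `F = (5/16)/t + O(|t|^{-2})` there, and
`Im ∫_0^R dx/(x-iR) = R∫_0^R dx/(x²+R²) = π/4`, `Im i∫_{-R}^0 dy/(R+iy) = R∫_{-R}^0 dy/(R²+y²) =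
π/4`; total `5/16·π/2`. -/
def G_RECT : Prop :=
  Tendsto (fun R : ℝ => (∫ t in (0:ℝ)..R, (t:ℂ) ^ 3 * Hp 1 t).im) atTop
    (𝓝 (5 * Real.pi / 32)) ∧
  Tendsto (fun R : ℝ => (∫ t in (0:ℝ)..R, (t:ℂ) * Hp (-1) t).im) atTop (𝓝 0) ∧
  Tendsto (fun R : ℝ => (∫ t in (0:ℝ)..R, (t:ℂ) ^ 3 * Hp (-1) t).im) atTop (𝓝 0)

/-- IMH (assuming HEX, RP, G1, C0, IB, KB): imaginary parts on the positive axis. PROOF: in HEX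
all factors except `GV` are real for `t > 0` (`Ic t = Ib t`, `Kc t = Kb t`). With `b = 6 - k`: for
`b ≥ 3`, `GV (fb b p) t` is real (RP (3)). For `b ≤ 2`, `Im GV (fb b p) t` does not depend on
`t > 0` (RP (2)), so it is the limit for `t → 0+`: `p = 1`: `Im gb b`; `p = -1`: `-Im cb A b`
(`Ld^{b+1}/(b+1)` is real). `Im gb 2 = π a_1`, `Im gb 1 = (π/2) a_0`, `Im gb 0 = 0`;
`Im cb 2 = π A_1 + π³/24`, `Im cb 1 = (π/2) A_0`, `Im cb 0 = -π/2`. Coefficients of `k = 4, 5, 6`: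
`15, -6, 1`. -/
def G_IMH : Prop := ∀ A : ℕ → ℝ, (∀ j : ℕ, j ≤ 6 → IsA j (A j)) → ∀ t : ℝ, 0 < t →
  (Hp 1 t).im = 15 * Real.pi * aj 1 * (Ib t ^ 2 * Kb t ^ 4) - 3 * Real.pi * aj 0 * (Ib t * Kb t ^ 5) ∧
  (Hp (-1) t).im = Real.pi / 2 * Kb t ^ 6 + 3 * Real.pi * A 0 * (Ib t * Kb t ^ 5) -
    (15 * Real.pi * A 1 + 5 * Real.pi ^ 3 / 8) * (Ib t ^ 2 * Kb t ^ 4)

/-- ROT (assuming RP, G1, C0): the rotation relations. PROOF: `3 ≤ b ≤ 6`. (1) `GV (fb b 1) δ =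
-∫_δ^∞ K^b I^{6-b}x dx → -∫_0^∞` (integrable, RP (4)) and `→ gb b` (G1). (2) `GV (fb b (-1)) δ =
-∫_δ^∞ K^b I^{6-b}dx/x` (RP (3)), so by C0 `∫_δ^∞ K^bI^{6-b}dx/x - Ld δ^{b+1}/(b+1) → cb A b`; the
left side is real, so `cb A b` is real and the real limits follow. -/
def G_ROT : Prop := ∀ A : ℕ → ℝ, (∀ j : ℕ, j ≤ 6 → IsA j (A j)) → ∀ b : ℕ, 3 ≤ b → b ≤ 6 →
  ((∫ x in Ioi (0:ℝ), Kb x ^ b * Ib x ^ (6 - b) * x : ℝ) : ℂ) = -gb b ∧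
  (cb A b).im = 0 ∧
  Tendsto (fun δ : ℝ => (∫ x in Ioi δ, Kb x ^ b * Ib x ^ (6 - b) / x) -
    Ld δ ^ (b + 1) / ((b:ℝ) + 1)) (𝓝[>] 0) (𝓝 (cb A b).re)

/-- FIN (assuming AX, RECT, IMH, ROT, RP, HREG): the final step. PROOF: `A` from AX. Write
`w⁺_k = ∫ I²K⁴t^k`, `w⁻_k = ∫ IK⁵t^k`, `v_k = ∫ K⁶t^k`, `k = 1, 3` (convergent, RP (4), (5)).
RECT and IMH (the imaginary part of the integral is the integral of `t^k Im H_p(t)`, by HREG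
`t^k H_p` is integrable on `(0,R)`; and `∫_0^R → ∫_0^∞`): `15πa_1w⁺_3 - 3πa_0w⁻_3 = 5π/32`;
`(π/2)v_k + 3πA_0w⁻_k - (15πA_1+5π³/8)w⁺_k = 0` for `k = 1, 3`. Hence
`D = v_1w⁺_3 - v_3w⁺_1 = -6A_0(w⁻_1w⁺_3 - w⁻_3w⁺_1)`. ROT (1): imaginary parts `b = 3, 5, 4, 6`:
`a_2 = (π²/12)a_0`, `a_4 = (7π⁴/240)a_0`, `a_3 = (π²/4)a_1`, `a_5 = (7π⁴/48)a_1`; real parts
`b = 4`: `w⁺_1 = -(a_4 - (3π²/2)a_2 + (π⁴/16)a_0) = (π⁴/30)a_0`; `b = 5`: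
`w⁻_1 = -(a_5 - (5π²/2)a_3 + (5π⁴/16)a_1) = (π⁴/6)a_1`. So `w⁻_1w⁺_3 - w⁻_3w⁺_1 = π⁴/576`.
ROT (2): `b = 3`: `A_2 = (π²/12)A_0`; `b = 5`: `A_4 = (7π⁴/240)A_0`; ROT (3) with `b = 4`: `IsJ24 J`
with `J = Re c_4 = A_4 - (3π²/2)A_2 + (π⁴/16)A_0 = -(π⁴/30)A_0`. `D = -6A_0π⁴/576 = (5/16)J`. -/
def G_FIN : Prop := EC237.S1

end EC237.PI
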