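import Pool.Agent.Helper23.EC.DGoalsA

/-!
# MP_ecc237_nt: the reduced form (E.1) of `Φ_B` and (D.16) `Φ_B(y) → 0` as `y → ∞`.

Paper: `ecc237_partE.md` (E.1), `ecc237_partD.md` (D.16). The reduced form was tested numerically
(y = 1, 2, 3). `InCl r k` means `k.2 + 3 k.1 ≡ r (mod 6)`; for `r = 1, 2, 4, 5` it implies
`k.2 ≠ 0`, for odd `r` it implies `k ≠ 0` (`omega`).
-/

set_option autoImplicit false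

open MeasureTheory Filter Topology Set

namespace EC237.DX

/-- `[x^i] X(k - αx, k' - α'x)` -/
noncomputable def xc (w : ℂ) (i : ℕ) (α α' : ℤ) (k k' : ℤ × ℤ) : ℂ :=
  PowerSeries.coeff i (XX w (k, α) (k', α'))

/-- `Σ_{k ∈ Λ_r, s - k ∈ Λ_r'} [x^i] X(k - αx, (s - k) - α'x)` -/
noncomputable def cs (w : ℂ) (i : ℕ) (r r' α α' : ℤ) (s : ℤ × ℤ) : ℂ :=
  ∑' k : ℤ × ℤ, if InCl r k ∧ InCl r' (s - k) then xc w i α α' k (s - k) else 0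

/-- `[x^j] A_s B_s` for the vector `s - γx` -/
noncomputable def ab (w : ℂ) (j : ℕ) (γ : ℤ) (s : ℤ × ℤ) : ℂ :=
  PowerSeries.coeff j (As w (s, γ) * Bs w (s, γ))

/-- `1/N_s` (zero for `s = 0`) -/
noncomputable def nI (w : ℂ) (s : ℤ × ℤ) : ℂ := (KA w s * KB w s)⁻¹

/-- `Y(s)` -/
noncomputable def Ys (w : ℂ) (s : ℤ × ℤ) : ℂ := cs w 1 1 1 1 0 s

/-- `W(s)` -/
noncomputable def Ws (w : ℂ) (s : ℤ × ℤ) : ℂ := cs w 1 1 3 1 (-1) (-s)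

/-- `E_j(s)` -/
noncomputable def Es (w : ℂ) (j : ℕ) (s : ℤ × ℤ) : ℂ := cs w j 1 5 1 (-1) s

/-- the term of the first sum of (E.1) -/
noncomputable def e1A (w : ℂ) (s : ℤ × ℤ) : ℂ :=
  if InCl 2 s then nI w s * (Ys w s * (Ws w s - Ys w s)) else 0

/-- the term of the second sum of (E.1) -/
noncomputable def e1B (w : ℂ) (s : ℤ × ℤ) : ℂ :=
  if InCl 0 s then nI w s * (Es w 0 s * Es w 2 s) else 0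

/-- (E.1), the reduced form of `Φ_B`. -/
def E1R : Prop := ∀ y : ℝ, 0 < y → Summable (e1A (y:ℂ)) ∧ Summable (e1B (y:ℂ)) ∧
  PhiB (y:ℂ) = -(2 / 3) * (y:ℂ) ^ 3 * (∑' s, e1A (y:ℂ) s + ∑' s, e1B (y:ℂ) s)

/-! ## Packets for (E.1) -/

/-- FUB. Summation over the tuples with fixed `s = κ1 + κ2` (first form) or `κ2 + κ3` (second form).
PROOF: the equivalence `(κ1, κ2, κ3) ↦ (κ1 + κ2, κ1, κ3)` of `Tri` (second form: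
`(κ2 + κ3, κ2, κ1)`) transforms the sum into the sum of `c s * (u s k * v s l)` over `(s, k, l)`;
`Summable.tsum_prod` (twice; `Summable.prod`, complete space), `tsum_mul_left`, `tsum_mul_right`.
(No summability of `u s` or `v s` alone is needed: in the field `ℂ` `tsum_mul_left/right` hold
without it. For the summability of the result use `Summable.prod`.) -/
def G_FUB : Prop := ∀ (c : ℤ × ℤ → ℂ) (u v : ℤ × ℤ → ℤ × ℤ → ℂ),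
  (Summable (fun p : Tri => c (p.1 + p.2.1) * (u (p.1 + p.2.1) p.1 * v (p.1 + p.2.1) p.2.2)) →
    Summable (fun s => c s * ((∑' k, u s k) * ∑' k, v s k)) ∧
    ∑' p : Tri, c (p.1 + p.2.1) * (u (p.1 + p.2.1) p.1 * v (p.1 + p.2.1) p.2.2) =
      ∑' s, c s * ((∑' k, u s k) * ∑' k, v s k)) ∧
  (Summable (fun p : Tri =>
      c (p.2.1 + p.2.2) * (u (p.2.1 + p.2.2) p.2.1 * v (p.2.1 + p.2.2) p.1)) →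
    Summable (fun s => c s * ((∑' k, u s k) * ∑' k, v s k)) ∧
    ∑' p : Tri, c (p.2.1 + p.2.2) * (u (p.2.1 + p.2.2) p.2.1 * v (p.2.1 + p.2.2) p.1) =
      ∑' s, c s * ((∑' k, u s k) * ∑' k, v s k))

/-- XC. Algebra of the coefficients. PROOF: `PowerSeries.coeff_mul` (antidiagonals of `0, 1, 2`),
`gser` explicitly: with `a = K⁻¹`, `b = K*⁻¹`, `[x^i] X = Σ_{p+q=i} (α^p a^{p+1} α'^q b'^{q+1} -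
α^p b^{p+1} α'^q a'^{q+1})`. (7): `(κ1,α) + (κ2,-α) = (κ1+κ2, 0)` and `A B = C(nI)` for shift `0`. -/
def G_XC : Prop := ∀ w : ℂ,
  (∀ (i : ℕ) (α α' : ℤ) (k k' : ℤ × ℤ), xc w i α α' k k' = -xc w i α' α k' k) ∧
  (∀ (i : ℕ) (α α' : ℤ) (k k' : ℤ × ℤ), xc w i (-α) (-α') (-k) (-k') = xc w i α α' k k') ∧
  (∀ (i : ℕ) (α α' : ℤ) (k k' : ℤ × ℤ),
    xc w i (-α) (-α') k k' = (-1) ^ i * xc w i α α' k k') ∧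
  (∀ (α α' : ℤ) (k k' : ℤ × ℤ), xc w 0 α α' k k' = xc w 0 0 0 k k') ∧
  (∀ (i : ℕ) (k k' : ℤ × ℤ), 1 ≤ i → xc w i 0 0 k k' = 0) ∧
  (∀ (α α' : ℤ) (k k' : ℤ × ℤ), xc w 1 α α' k k' = xc w 1 α 0 k k' + xc w 1 0 α' k k') ∧
  (∀ (α β : ℤ) (k1 k2 k3 k4 : ℤ × ℤ),
    PowerSeries.coeff 2 (Qs w (k1, α) (k2, -α) (k3, β) (k4, -β)) =
      -(2 / 3) * w ^ 3 * (nI w (k1 + k2) * (xc w 0 α (-α) k1 k2 * xc w 2 β (-β) k3 k4 +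
        xc w 1 α (-α) k1 k2 * xc w 1 β (-β) k3 k4 + xc w 2 α (-α) k1 k2 * xc w 0 β (-β) k3 k4))) ∧
  (∀ k1 k2 k3 k4 : ℤ × ℤ,
    PowerSeries.coeff 2 (Qs w (k2, -1) (k3, 0) (k4, 0) (k1, 1)) = -(2 / 3) * w ^ 3 *
      (nI w (k2 + k3) * (xc w 0 (-1) 0 k2 k3 * xc w 2 0 1 k4 k1 +
          xc w 1 (-1) 0 k2 k3 * xc w 1 0 1 k4 k1 + xc w 2 (-1) 0 k2 k3 * xc w 0 0 1 k4 k1) +
        ab w 1 (-1) (k2 + k3) * (xc w 0 (-1) 0 k2 k3 * xc w 1 0 1 k4 k1 +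
          xc w 1 (-1) 0 k2 k3 * xc w 0 0 1 k4 k1) +
        ab w 2 (-1) (k2 + k3) * (xc w 0 (-1) 0 k2 k3 * xc w 0 0 1 k4 k1))) ∧
  (∀ (γ : ℤ) (s : ℤ × ℤ), ab w 0 γ s = nI w s) ∧
  (∀ (j : ℕ) (γ : ℤ), ab w j γ 0 = 0) ∧ nI w 0 = 0 ∧ (∀ s : ℤ × ℤ, nI w (-s) = nI w s)

/-- CSS (assuming B2, B4). Summability of the inner sums. PROOF: `k ≠ 0`, `s - k ≠ 0` for odd
classes, so B2 (with `y0 = y`, `w = y`; `y ∈ Bd y`) bounds the term by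
`C·rk(s)^{e}(pw k + pw (s-k))`, and `pw`, `pw (s - ·)` are summable (`Equiv.subLeft`). -/
def G_CSS : Prop := ∀ y : ℝ, 0 < y → ∀ (i : ℕ) (r r' α α' : ℤ) (s : ℤ × ℤ), i ≤ 2 →
  (r = 1 ∨ r = 3 ∨ r = 5) → (r' = 1 ∨ r' = 3 ∨ r' = 5) → |α| ≤ 1 → |α'| ≤ 1 → s ≠ 0 →
  Summable (fun k : ℤ × ℤ => if InCl r k ∧ InCl r' (s - k) then xc (y:ℂ) i α α' k (s - k) else 0)

/-- SYM (assuming XC, CSS). PROOF: put `k' = s - k` (`Equiv.subLeft s`, `tsum` invariant) and use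
`X(v1,v2) = -X(v2,v1)`: (1) `cs i r r' α α' s = -cs i r' r α' α s`; hence for `r = r'` and `i = 0`
(`xc 0` does not depend on `α, α'`) `cs 0 r r α α' s = 0`: (2). (3) With (3) of XC
`cs i r r 1 (-1) s = -cs i r r (-1) 1 s = -(-1)^i cs i r r 1 (-1) s`, so `0` for `i = 2`. (4)
`cs 1 1 1 1 (-1) s = cs 1 1 1 1 0 s + cs 1 1 1 0 (-1) s` (XC (6), `Summable.tsum_add` with CSS) and
`cs 1 1 1 0 (-1) s = -cs 1 1 1 (-1) 0 s = cs 1 1 1 1 0 s`. (5) `k ↦ -k` and XC (2). -/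
def G_SYM : Prop := ∀ y : ℝ, 0 < y →
  (∀ (i : ℕ) (r r' α α' : ℤ) (s : ℤ × ℤ), cs (y:ℂ) i r r' α α' s = -cs (y:ℂ) i r' r α' α s) ∧
  (∀ (r α α' : ℤ) (s : ℤ × ℤ), cs (y:ℂ) 0 r r α α' s = 0) ∧
  (∀ (r : ℤ) (s : ℤ × ℤ), cs (y:ℂ) 2 r r 1 (-1) s = 0) ∧
  (∀ s : ℤ × ℤ, s ≠ 0 → cs (y:ℂ) 1 1 1 1 (-1) s = 2 * Ys (y:ℂ) s) ∧
  (∀ (i : ℕ) (r r' q q' α α' : ℤ) (s : ℤ × ℤ), (q + r) % 6 = 0 → (q' + r') % 6 = 0 →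
    cs (y:ℂ) i r r' α α' (-s) = cs (y:ℂ) i q q' (-α) (-α') s) ∧
  (∀ (i : ℕ) (r r' α α' : ℤ) (s : ℤ × ℤ),
    cs (y:ℂ) i r r' (-α) (-α') s = (-1) ^ i * cs (y:ℂ) i r r' α α' s)

/-- PS (assuming XC, B2, B4). Absolute summability of the products. PROOF: if `s = κ1 + κ2 = 0` the
term is `0` (XC: `ab j γ 0 = 0`). Otherwise also `κ3 + κ4 = -s ≠ 0`, and B2 bounds the three
factors by `C rk(s)^{-2-l}`, `C rk(s)^{e_i}(pw κ1 + pw κ2)`, `C rk(s)^{e_j}(pw κ3 + pw κ4)` with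
`e_0 = 1/2`, `e_1 = -1/2`, `e_2 = -1`; `rk (-s) = rk s ≥ 1`, and `e_i + e_j - 2 - l ≤ -5/2` for
`i + j + l = 2`; so the term is at most `C³` times the second (third) majorant of B4. -/
def G_PS : Prop := ∀ y : ℝ, 0 < y → ∀ i j l : ℕ, i + j + l = 2 → ∀ α1 α2 α3 α4 γ : ℤ,
  |α1| ≤ 1 → |α2| ≤ 1 → |α3| ≤ 1 → |α4| ≤ 1 → |γ| ≤ 1 →
  Summable (fun p : Tri => if p.1 ≠ 0 ∧ p.2.1 ≠ 0 ∧ p.2.2 ≠ 0 ∧ k4 p ≠ 0 then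
    ‖ab (y:ℂ) l γ (p.1 + p.2.1) *
      (xc (y:ℂ) i α1 α2 p.1 p.2.1 * xc (y:ℂ) j α3 α4 p.2.2 (k4 p))‖ else 0) ∧
  Summable (fun p : Tri => if p.1 ≠ 0 ∧ p.2.1 ≠ 0 ∧ p.2.2 ≠ 0 ∧ k4 p ≠ 0 then
    ‖ab (y:ℂ) l γ (p.2.1 + p.2.2) *
      (xc (y:ℂ) i α1 α2 p.2.1 p.2.2 * xc (y:ℂ) j α3 α4 (k4 p) p.1)‖ else 0)

/-- RAS (assuming FUB, XC, SYM, PS). Family A, s-channel. PROOF: for `p` with `s = κ1 + κ2`: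
`ClT 1 1 1 p ↔ InCl 2 s ∧ InCl 1 κ1 ∧ InCl 1 (s-κ1) ∧ InCl 1 κ3 ∧ InCl 3 (-s-κ3)` (omega), and
`k4 p = -s - κ3`. By XC (7) (`α = β = 1`) the term is
`Σ_{i+j=2} c(s) u_i(s,κ1) v_j(s,κ3)`, `c(s) = if InCl 2 s then -(2/3) y³ nI s else 0`,
`u_i(s,k) = if InCl 1 k ∧ InCl 1 (s-k) then xc i 1 (-1) k (s-k) else 0`,
`v_j(s,k) = if InCl 1 k ∧ InCl 3 (-s-k) then xc j 1 (-1) k (-s-k) else 0`; each of the three is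
absolutely summable by PS (`l = 0`, `ab 0 = nI`), so FUB (first form) applies. Inner sums:
`cs i 1 1 1 (-1) s` (`0` for `i = 0, 2`, `2 Ys s` for `i = 1` by SYM; `s ≠ 0` for `s ∈ Λ2`) and
`cs j 1 3 1 (-1) (-s)` (`= Ws s` for `j = 1`). -/
def G_RAS : Prop := ∀ y : ℝ, 0 < y →
  Summable (famA fun v1 v2 v3 v4 => PowerSeries.coeff 2 (Qs (y:ℂ) v1 v2 v3 v4)) ∧
  Summable (fun s : ℤ × ℤ => if InCl 2 s then nI (y:ℂ) s * (Ys (y:ℂ) s * Ws (y:ℂ) s) else 0) ∧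
  ∑' p : Tri, famA (fun v1 v2 v3 v4 => PowerSeries.coeff 2 (Qs (y:ℂ) v1 v2 v3 v4)) p =
    -(2 / 3) * (y:ℂ) ^ 3 *
      (2 * ∑' s : ℤ × ℤ, if InCl 2 s then nI (y:ℂ) s * (Ys (y:ℂ) s * Ws (y:ℂ) s) else 0)

/-- RAT (assuming FUB, XC, SYM, PS). Family A, t-channel. PROOF: as RAS with the second form of FUB,
`t = κ2 + κ3`: `Qs v2 v3 v4 v1` with the shifts `-1, 1, -1, 1` (XC (7) with `α = β = -1`),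
`u_i(t,k) = if InCl 1 k ∧ InCl 1 (t-k) then xc i (-1) 1 k (t-k) else 0` (`k = κ2`),
`v_j(t,k) = if InCl 1 k ∧ InCl 3 (-t-k) then xc j (-1) 1 (-t-k) k else 0` (`k = κ1`). Inner sums:
`cs i 1 1 (-1) 1 t = (-1)^i cs i 1 1 1 (-1) t` and, by `xc j (-1) 1 (-t-k) k = -xc j 1 (-1) k (-t-k)`,
`-cs j 1 3 1 (-1) (-t)`. Only `i = j = 1` remains: `(-2 Ys t)(-Ws t)`. -/
def G_RAT : Prop := ∀ y : ℝ, 0 < y →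
  Summable (famA fun v1 v2 v3 v4 => PowerSeries.coeff 2 (Qs (y:ℂ) v2 v3 v4 v1)) ∧
  ∑' p : Tri, famA (fun v1 v2 v3 v4 => PowerSeries.coeff 2 (Qs (y:ℂ) v2 v3 v4 v1)) p =
    -(2 / 3) * (y:ℂ) ^ 3 *
      (2 * ∑' s : ℤ × ℤ, if InCl 2 s then nI (y:ℂ) s * (Ys (y:ℂ) s * Ws (y:ℂ) s) else 0)

/-- RBS (assuming FUB, XC, SYM, PS). Family B, s-channel. PROOF: `ClT 1 5 5 p ↔ InCl 0 s ∧
InCl 1 κ1 ∧ InCl 5 (s-κ1) ∧ InCl 5 κ3 ∧ InCl 1 (-s-κ3)`, `s = κ1 + κ2`; shifts `1, -1, 0, 0` (XC (7)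
with `α = 1`, `β = 0`); `xc j 0 0 = 0` for `j ≥ 1`, so only `i = 2`, `j = 0` remains (as summands
with the factor `0`, before FUB). `u(s,k) = if InCl 1 k ∧ InCl 5 (s-k) then xc 2 1 (-1) k (s-k)
else 0`: inner sum `Es 2 s`; `v(s,k) = if InCl 5 k ∧ InCl 1 (-s-k) then xc 0 0 0 k (-s-k) else 0`:
inner sum `cs 0 5 1 0 0 (-s) = cs 0 1 5 0 0 s` (SYM (5)) `= Es 0 s` (XC (4)). For `s = 0` the
factor `nI 0 = 0`. -/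
def G_RBS : Prop := ∀ y : ℝ, 0 < y →
  Summable (famB fun v1 v2 v3 v4 => PowerSeries.coeff 2 (Qs (y:ℂ) v1 v2 v3 v4)) ∧
  Summable (e1B (y:ℂ)) ∧
  ∑' p : Tri, famB (fun v1 v2 v3 v4 => PowerSeries.coeff 2 (Qs (y:ℂ) v1 v2 v3 v4)) p =
    -(2 / 3) * (y:ℂ) ^ 3 * ∑' s, e1B (y:ℂ) s

/-- RBT (assuming FUB, XC, SYM, PS). Family B, t-channel. PROOF: `t = κ2 + κ3 ∈ Λ4`, `ClT 1 5 5 p ↔
InCl 4 t ∧ InCl 5 κ2 ∧ InCl 5 (t-κ2) ∧ InCl 1 κ1 ∧ InCl 1 (-t-κ1)`. XC (8): six terms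
`ab l (-1) t · xc i (-1) 0 κ2 κ3 · xc j 0 1 κ4 κ1`, `i + j + l = 2` (`ab 0 = nI`), each absolutely
summable (PS). Inner sums `cs i 5 5 (-1) 0 t` (`0` for `i = 0`, SYM (2)) and
`Σ_k [InCl 1 k, InCl 1 (-t-k)] xc j 0 1 (-t-k) k = -cs j 1 1 1 0 (-t)` (`0` for `j = 0`). So only
`i = j = 1`, `l = 0` remains: `cs 1 5 5 (-1) 0 t = cs 1 1 1 1 0 (-t) = Ys (-t)` (SYM (5)) and
`-Ys (-t)`. Finally `s = -t` (`Equiv.neg`), `InCl 4 t ↔ InCl 2 (-t)`, `nI (-s) = nI s`. -/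
def G_RBT : Prop := ∀ y : ℝ, 0 < y →
  Summable (famB fun v1 v2 v3 v4 => PowerSeries.coeff 2 (Qs (y:ℂ) v2 v3 v4 v1)) ∧
  Summable (fun s : ℤ × ℤ => if InCl 2 s then nI (y:ℂ) s * (Ys (y:ℂ) s * Ys (y:ℂ) s) else 0) ∧
  ∑' p : Tri, famB (fun v1 v2 v3 v4 => PowerSeries.coeff 2 (Qs (y:ℂ) v2 v3 v4 v1)) p =
    -(2 / 3) * (y:ℂ) ^ 3 *
      (-∑' s : ℤ × ℤ, if InCl 2 s then nI (y:ℂ) s * (Ys (y:ℂ) s * Ys (y:ℂ) s) else 0)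

/-! ## Packets for (D.16) -/

/-- `|k|_y = |n + i m y|` -/
noncomputable def ry (y : ℝ) (k : ℤ × ℤ) : ℝ := ‖KA (y:ℂ) k‖

/-- BDX. Bounds of the coefficients for real `y > 0`. PROOF: `r = ry k`, `r' = ry k'`,
`S = ry (k + k')`, `K = KA k`, `‖KB k‖ = ‖KA k‖` (complex conjugates), `KA (k + k') = K + K'`. By
symmetry let `r' ≤ r` (XC (1)); then `S ≤ 2 r`. (0) `xc 0 = a b' - b a'`, `= (K* K' - K K'*)/(r² r'²)`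
up to sign, and `|K* K' - K K'*| ≤ 2 min(r r', S r')` (replace `K` by `K + K'`: the term
`K'* K' - K' K'*` is 0). If `r' ≤ S`: `|xc 0| ≤ 2/(r r') ≤ 4/(S r') ≤ 4 S^{1/2} r'^{-5/2}`; if
`r' > S`: `|xc 0| ≤ 2 S/(r² r') ≤ 2 S r'^{-3} ≤ 2 S^{1/2} r'^{-5/2}`. (1) `|xc 1| ≤ 2/(r² r') +
2/(r r'²) ≤ 4/(r r'²) ≤ 4 r^{-1/2} r'^{-5/2} ≤ 4 √2 S^{-1/2} r'^{-5/2}`. (2) `|xc 2| ≤ 2/(r³ r') +
2/(r² r'²) + 2/(r r'³) ≤ 6/(r r'³) ≤ (12/S) r'^{-1/2} r'^{-5/2} ≤ 12 y^{-1/2} S^{-1} r'^{-5/2}`. -/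
def G_BDX : Prop := ∀ y : ℝ, 0 < y → ∀ (α α' : ℤ) (k k' : ℤ × ℤ), |α| ≤ 1 → |α'| ≤ 1 →
  k ≠ 0 → k' ≠ 0 → k + k' ≠ 0 →
  ‖xc (y:ℂ) 0 α α' k k'‖ ≤ 12 * ry y (k + k') ^ (1 / 2 : ℝ) *
    (ry y k ^ (-(5 / 2) : ℝ) + ry y k' ^ (-(5 / 2) : ℝ)) ∧
  ‖xc (y:ℂ) 1 α α' k k'‖ ≤ 12 * ry y (k + k') ^ (-(1 / 2) : ℝ) *
    (ry y k ^ (-(5 / 2) : ℝ) + ry y k' ^ (-(5 / 2) : ℝ)) ∧
  (y ≤ ry y k → y ≤ ry y k' → ‖xc (y:ℂ) 2 α α' k k'‖ ≤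
    12 * (y ^ (-(1 / 2) : ℝ) * ry y (k + k') ^ (-1 : ℝ)) *
    (ry y k ^ (-(5 / 2) : ℝ) + ry y k' ^ (-(5 / 2) : ℝ)))

/-- LAT (assuming B4). Lattice sums for `y ≥ 1`. PROOF: (1) `ry y k ≥ |k.2| y ≥ y`. (2) `ry y k ≥ rk k`,
so `ry^{-5/2} ≤ pw k` for `k ≠ 0`, and `pw` is summable (B4). (3), (4): for `m ≠ 0`, `A = |m| y ≥ 1`,
`N = max |n| 1`: `ry = √(n²+A²) ≥ A`, `≥ N`, so `ry^{-p} ≤ N^{-9/8} A^{-(p-9/8)}`, `p = 5/2` or `3`,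
and `Σ_n N^{-9/8} < ∞`, `Σ_{m≠0} |m|^{-(p-9/8)} < ∞` (`p - 9/8 = 11/8`, `15/8`); product sum
(`Summable.mul_of_nonneg`). -/
def G_LAT : Prop := (∀ y : ℝ, 0 < y → ∀ k : ℤ × ℤ, k.2 ≠ 0 → y ≤ ry y k) ∧
  ∃ C : ℝ, 0 < C ∧ ∀ y : ℝ, 1 ≤ y →
  (Summable (fun k : ℤ × ℤ => if k = 0 then 0 else ry y k ^ (-(5 / 2) : ℝ)) ∧
    ∑' k : ℤ × ℤ, (if k = 0 then 0 else ry y k ^ (-(5 / 2) : ℝ)) ≤ C) ∧
  (Summable (fun k : ℤ × ℤ => if k.2 = 0 then 0 else ry y k ^ (-(5 / 2) : ℝ)) ∧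
    ∑' k : ℤ × ℤ, (if k.2 = 0 then 0 else ry y k ^ (-(5 / 2) : ℝ)) ≤ C * y ^ (-(11 / 8) : ℝ)) ∧
  (Summable (fun k : ℤ × ℤ => if k.2 = 0 then 0 else ry y k ^ (-3 : ℝ)) ∧
    ∑' k : ℤ × ℤ, (if k.2 = 0 then 0 else ry y k ^ (-3 : ℝ)) ≤ C * y ^ (-(15 / 8) : ℝ))

/-- BY (assuming BDX, LAT). Bounds of `Y`, `W`, `E_0`, `E_2` for `y ≥ 1`. PROOF: `norm_tsum_le_tsum_norm`
and `tsum_le_tsum` with the majorants `12·(factor of s)·(f k + f (s-k))`, `f` from LAT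
(`Equiv.subLeft`), using that the classes `1, 5` have `k.2 ≠ 0` (so `y ≤ ry y k`), and the class
`3` has `k ≠ 0`; `ry y (-s) = ry y s`. -/
def G_BY : Prop := ∃ C : ℝ, 0 < C ∧ ∀ y : ℝ, 1 ≤ y → ∀ s : ℤ × ℤ,
  (InCl 2 s → ‖Ys (y:ℂ) s‖ ≤ C * ry y s ^ (-(1 / 2) : ℝ) * y ^ (-(11 / 8) : ℝ) ∧
    ‖Ws (y:ℂ) s‖ ≤ C * ry y s ^ (-(1 / 2) : ℝ)) ∧
  (InCl 0 s → s ≠ 0 → ‖Es (y:ℂ) 0 s‖ ≤ C * ry y s ^ (1 / 2 : ℝ) * y ^ (-(11 / 8) : ℝ) ∧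
    ‖Es (y:ℂ) 2 s‖ ≤ C * ry y s ^ (-1 : ℝ) * y ^ (-(15 / 8) : ℝ))

/-- FIN (assuming E1R, LAT, BY). PROOF: `‖nI s‖ = ry(s)^{-2}`. `‖e1A s‖ ≤ ry^{-2}·C ry^{-1/2} y^{-11/8}·
2C ry^{-1/2} = 2C² y^{-11/8} ry^{-3}` (`s.2 ≠ 0`), `‖e1B s‖ ≤ ry^{-2}·C ry^{1/2} y^{-11/8}·C ry^{-1}
y^{-15/8} = C² y^{-26/8} ry^{-5/2}` (`s ≠ 0`; `e1B 0 = 0`). By LAT `‖PhiB y‖ ≤ C' y³ (y^{-26/8} +
y^{-26/8}) = 2C' y^{-1/4} → 0`. -/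
def G_FIN : Prop := D16

end EC237.DX
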