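import Pool.Agent.Helper38.EC.Goals

set_option autoImplicit false

open MeasureTheory Filter Topology Set Complex

namespace Pool.Agent.Helper38.EC.I_ROT

open EC237 EC237.PI

/-- lower limit to zero -/
theorem tendsto_Ioi {F : ℝ → ℝ} (hF : IntegrableOn F (Ioi 0)) :
    Tendsto (fun δ : ℝ => ∫ x in Ioi δ, F x) (𝓝[>] 0) (𝓝 (∫ x in Ioi (0:ℝ), F x)) := by
  have h1 : ∀ δ : ℝ, 0 < δ → ∫ x in Ioi δ, F x = ∫ x in Ioi (0:ℝ), (Ioi δ).indicator F x := by
    intro δ hδ
    rw [setIntegral_indicator measurableSet_Ioi]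
    congr 2
    ext x
    simp only [mem_inter_iff, mem_Ioi]
    constructor
    · intro h; exact ⟨by linarith, h⟩
    · intro h; exact h.2
  have h2 : Tendsto (fun δ : ℝ => ∫ x in Ioi (0:ℝ), (Ioi δ).indicator F x) (𝓝[>] 0)
      (𝓝 (∫ x in Ioi (0:ℝ), F x)) := by
    refine tendsto_integral_filter_of_dominated_convergence (fun x => ‖F x‖) ?_ ?_ hF.norm ?_
    · filter_upwards with δ
      exact (hF.aestronglyMeasurable).indicator measurableSet_Ioi
    · filter_upwards with δ
      filter_upwards with x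
      exact norm_indicator_le_norm_self F x
    · filter_upwards [ae_restrict_mem measurableSet_Ioi] with x hx
      have hx' : (0:ℝ) < x := hx
      refine tendsto_const_nhds.congr' ?_
      filter_upwards [mem_nhdsWithin_of_mem_nhds (Iio_mem_nhds hx')] with δ hδ
      have : δ < x := hδ
      rw [indicator_of_mem (by exact this)]
  refine h2.congr' ?_
  filter_upwards [self_mem_nhdsWithin] with δ hδ
  exact (h1 δ hδ).symm

theorem thm (rp : G_RP) (g1 : G_G1) (c0 : G_C0) : G_ROT := by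
  obtain ⟨-, -, h3, h4, -⟩ := rp
  intro A hA b hb3 hb6
  have e1 : ((∫ x in Ioi (0:ℝ), Kb x ^ b * Ib x ^ (6 - b) * x : ℝ) : ℂ) = -gb b := by
    have t1 := g1 b hb6
    have t2 : Tendsto (fun δ : ℝ => GV (fb b 1) δ) (𝓝[>] 0)
        (𝓝 ((-(∫ x in Ioi (0:ℝ), Kb x ^ b * Ib x ^ (6 - b) * x) : ℝ) : ℂ)) := by
      have := (tendsto_Ioi (h4 b hb3 hb6)).neg
      have := (Complex.continuous_ofReal.tendsto _).comp this
      refine this.congr' ?_
      filter_upwards [self_mem_nhdsWithin] with δ hδ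
      have := (h3 b hb3 hb6 1 (Or.inl rfl) δ hδ).2
      rw [this]
      simp only [Function.comp, zpow_one]
    have := tendsto_nhds_unique t1 t2
    rw [this]
    push_cast
    ring
  -- the second relation
  have t3 := c0 A hA b hb6
  have t4 : Tendsto (fun δ : ℝ => (((∫ x in Ioi δ, Kb x ^ b * Ib x ^ (6 - b) / x) -
      Ld δ ^ (b + 1) / ((b:ℝ) + 1) : ℝ) : ℂ)) (𝓝[>] 0) (𝓝 (cb A b)) := by
    have := t3.neg
    rw [neg_neg] at this
    refine this.congr' ?_
    filter_upwards [self_mem_nhdsWithin] with δ hδ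
    have := (h3 b hb3 hb6 (-1) (Or.inr rfl) δ hδ).2
    rw [this]
    have e : ∀ x : ℝ, Kb x ^ b * Ib x ^ (6 - b) * x ^ (-1:ℤ) = Kb x ^ b * Ib x ^ (6 - b) / x := by
      intro x
      rw [zpow_neg_one, div_eq_mul_inv]
    simp only [e]
    push_cast
    ring
  have hre := (Complex.continuous_re.tendsto _).comp t4
  have him := (Complex.continuous_im.tendsto _).comp t4
  refine ⟨e1, ?_, ?_⟩
  · have hz : Tendsto (fun _ : ℝ => (0:ℝ)) (𝓝[>] (0:ℝ)) (𝓝 (cb A b).im) := by
      refine him.congr ?_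
      intro δ
      simp only [Function.comp, Complex.ofReal_im]
    exact (tendsto_nhds_unique hz tendsto_const_nhds)
  · refine hre.congr ?_
    intro δ
    simp only [Function.comp, Complex.ofReal_re]

end Pool.Agent.Helper38.EC.I_ROT
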